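import Pool.Agent.NH86.NCR.Eff

set_option autoImplicit false

/-! The class, and Koenig's lemma. -/

namespace Pool.Agent.NH86.NCR

open Encodable Nat.Partrec Pool.Agent.Helper446.RE

/-- paths of a sequence of finite sets of strings -/
def Pt (L : ℕ → List Str) : Set (ℕ → Bool) := {Y | ∀ k, tk Y k ∈ L k}

structure Cls (L : ℕ → List Str) (X : ℕ → Bool) : Prop where
  comp : Computable L
  len : ∀ k, ∀ x ∈ L k, x.length = k
  take : ∀ k, ∀ x ∈ L k, ∀ j, j ≤ k → x.take j ∈ L j
  mem : X ∈ Pt L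
  lim : ∀ m, ∃ Y ∈ Pt L, Y ≠ X ∧ tk Y m = tk X m
  cnt : (Pt L).Countable
  alt : ∀ W : Str → ℕ → Prop, REPred (fun x : Str × ℕ => W x.1 x.2) →
    ∃ m0, (∀ Y ∈ Pt L, tk Y m0 = tk X m0 → ∃ n, ∀ i, ¬ W (tk Y i) n) ∨
      (∀ Y ∈ Pt L, tk Y m0 = tk X m0 → ∀ n, ∃ i, W (tk Y i) n)

/-- the environment of all the requirements -/
def vv : Env := fun e σ n =>
  allB (fun m => exB (fun i => wst (Str × ℕ) e σ.length (σ.take i, m)) (σ.length + 1)) n

lemma vv_iff (e : ℕ) (σ : Str) (n : ℕ) : vv e σ n = true ↔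
    ∀ m < n, ∃ i < σ.length + 1, wst (Str × ℕ) e σ.length (σ.take i, m) = true := by
  unfold vv
  rw [allB_iff]
  simp only [exB_iff]

lemma vv_mono (e : ℕ) (σ τ : Str) (n : ℕ) (h : σ <+: τ) (hs : vv e σ n = true) :
    vv e τ n = true := by
  rw [vv_iff] at *
  intro m hm
  obtain ⟨i, hi, h1⟩ := hs m hm
  have hl := h.length_le
  refine ⟨i, by omega, ?_⟩
  have h2 : τ.take i = σ.take i := by
    rw [List.prefix_iff_eq_take] at h
    rw [h, List.take_take, min_eq_left (by omega)]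
  rw [h2]
  exact wst_mono hl h1

lemma vv_comp : Computable (fun x : ℕ × (Str × ℕ) => vv x.1 x.2.1 x.2.2) := by
  unfold vv
  have h0 : Computable (fun x : ((ℕ × (Str × ℕ)) × ℕ) × ℕ =>
      wst (Str × ℕ) x.1.1.1 x.1.1.2.1.length (x.1.1.2.1.take x.2, x.1.2)) :=
    wst_comp.comp (f := fun p : (ℕ × ℕ) × (Str × ℕ) => wst (Str × ℕ) p.1.1 p.1.2 p.2)
      (g := fun x : ((ℕ × (Str × ℕ)) × ℕ) × ℕ =>
        ((x.1.1.1, x.1.1.2.1.length), (x.1.1.2.1.take x.2, x.1.2))) (by fun_prop)
  have h1 : Computable (fun x : (ℕ × (Str × ℕ)) × ℕ =>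
      exB (fun i => wst (Str × ℕ) x.1.1 x.1.2.1.length (x.1.2.1.take i, x.2))
        (x.1.2.1.length + 1)) :=
    computable_exB (q := fun (x : (ℕ × (Str × ℕ)) × ℕ) i =>
      wst (Str × ℕ) x.1.1 x.1.2.1.length (x.1.2.1.take i, x.2)) h0 (by fun_prop)
  exact computable_allB (q := fun (x : ℕ × (Str × ℕ)) m =>
    exB (fun i => wst (Str × ℕ) x.1 x.2.1.length (x.2.1.take i, m)) (x.2.1.length + 1)) h1
    (by fun_prop)

theorem main0 : ∃ L X, Cls L X := by
  obtain ⟨X, hX, hlim, hcnt, halt⟩ := core (v := vv) vv_mono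
  refine ⟨fun k => live k vv, X, live_computable vv_comp, fun k x hx => live_len hx,
    fun k x hx j hj => live_take hx hj, hX, hlim, hcnt, ?_⟩
  intro W hW
  obtain ⟨e, he⟩ := wst_univ hW
  obtain ⟨m0, h0⟩ := halt e
  refine ⟨m0, ?_⟩
  rcases h0 with ⟨n, hn⟩ | ht
  · left
    intro Y hY hYX
    by_contra hcon
    push Not at hcon
    have h1 : ∀ m, ∃ N, ∃ i ≤ N, wst (Str × ℕ) e N (tk Y i, m) = true := by
      intro m
      obtain ⟨i, hi⟩ := hcon m
      obtain ⟨s, hs⟩ := (he (tk Y i, m)).1 hi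
      exact ⟨max i s, i, le_max_left _ _, wst_mono (le_max_right _ _) hs⟩
    choose N hN using h1
    have h2 := hn Y hY hYX ((Finset.range n).sup N)
    have h3 : vv e (tk Y ((Finset.range n).sup N)) n = true := by
      rw [vv_iff]
      intro m hm
      obtain ⟨i, hi, h4⟩ := hN m
      have h5 : N m ≤ (Finset.range n).sup N := Finset.le_sup (Finset.mem_range.2 hm)
      rw [tk_length]
      refine ⟨i, by omega, ?_⟩
      rw [tk_take _ _ _ (by omega)]
      exact wst_mono h5 h4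
    rw [h3] at h2
    exact Bool.noConfusion h2
  · right
    intro Y hY hYX n
    obtain ⟨i, hi⟩ := ht Y hY hYX (n + 1)
    rw [vv_iff] at hi
    obtain ⟨j, hj, h1⟩ := hi n (by omega)
    rw [tk_length] at hj h1
    rw [tk_take _ _ _ (by omega)] at h1
    exact ⟨j, (he (tk Y j, n)).2 ⟨_, h1⟩⟩

/-- Koenig's lemma -/
theorem konig {A : ℕ → Str → Prop} (hlen : ∀ k τ, A k τ → τ.length = k)
    (hdown : ∀ k τ, A (k + 1) τ → A k (τ.take k)) (hne : ∀ k, ∃ τ, A k τ) :
    ∃ Z, ∀ k, A k (tk Z k) := by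
  classical
  have hd : ∀ k j τ, A (j + k) τ → A j (τ.take j) := by
    intro k
    induction k with
    | zero =>
      intro j τ h
      rw [List.take_of_length_le (by rw [hlen _ _ h]; omega)]
      exact h
    | succ k ih =>
      intro j τ h
      have h1 := ih j _ (hdown (j + k) τ h)
      rw [List.take_take, min_eq_left (by omega)] at h1
      exact h1
  let G : Str → Prop := fun σ => ∀ k, σ.length ≤ k → ∃ τ, A k τ ∧ σ <+: τ
  have hG0 : G [] := fun k _ => by
    obtain ⟨τ, hτ⟩ := hne k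
    exact ⟨τ, hτ, List.nil_prefix⟩
  have hGs : ∀ σ, ∃ b : Bool, G σ → G (σ ++ [b]) := by
    intro σ
    by_contra hcon
    push Not at hcon
    have ht := hcon true
    have hf := hcon false
    obtain ⟨hσ, ht⟩ := ht
    obtain ⟨_, hf⟩ := hf
    simp only [G] at ht hf
    push Not at ht hf
    obtain ⟨k1, hk1, h1⟩ := ht
    obtain ⟨k2, hk2, h2⟩ := hf
    simp only [List.length_append, List.length_singleton] at hk1 hk2
    obtain ⟨τ, hτ, hp⟩ := hσ (max k1 k2) (by omega)
    have hl := hlen _ _ hτ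
    have hp2 : ∀ (b : Bool) (k : ℕ), σ.length + 1 ≤ k → k ≤ max k1 k2 → τ[σ.length]? = some b →
        A k (τ.take k) ∧ σ ++ [b] <+: τ.take k := by
      intro b k h3 h4 h5
      refine ⟨?_, ?_⟩
      · obtain ⟨d, hd'⟩ := Nat.exists_eq_add_of_le h4
        exact hd d k τ (hd' ▸ hτ)
      · have h6 : σ ++ [b] = τ.take (σ.length + 1) := by
          rw [List.prefix_iff_eq_take] at hp
          rw [List.take_add_one, h5, ← hp]
          rfl
        rw [h6]
        exact List.take_prefix_take_left (by omega)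
    have hlt : σ.length < τ.length := by omega
    cases hb : τ[σ.length] with
    | true =>
      have := hp2 true k1 hk1 (le_max_left _ _) (by rw [List.getElem?_eq_getElem hlt, hb])
      exact h1 _ this.1 this.2
    | false =>
      have := hp2 false k2 hk2 (le_max_right _ _) (by rw [List.getElem?_eq_getElem hlt, hb])
      exact h2 _ this.1 this.2
  choose b hb using hGs
  let s : ℕ → Str := fun n => Nat.rec [] (fun _ σ => σ ++ [b σ]) n
  have hs : ∀ n, G (s n) ∧ (s n).length = n := by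
    intro n
    induction n with
    | zero => exact ⟨hG0, rfl⟩
    | succ n ih =>
      refine ⟨hb _ ih.1, ?_⟩
      show (s n ++ [b (s n)]).length = n + 1
      rw [List.length_append, ih.2]; rfl
  refine ⟨fun n => b (s n), fun k => ?_⟩
  have htk : ∀ k, tk (fun n => b (s n)) k = s k := by
    intro k
    induction k with
    | zero => rfl
    | succ k ih =>
      rw [tk_succ, ih]
  rw [htk]
  obtain ⟨τ, hτ, hp⟩ := (hs k).1 k (by rw [(hs k).2])
  have := hp.eq_of_length (by rw [(hs k).2, hlen _ _ hτ])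
  rw [this]; exact hτ

/-- compatibility with the first `m0` bits of `X` -/
def cnd (u : Str) (τ : Str) : Prop := τ.take u.length = u.take τ.length

lemma cnd_tk {X Z : ℕ → Bool} {m0 k : ℕ} (hk : m0 ≤ k) :
    cnd (tk X m0) (tk Z k) ↔ tk Z m0 = tk X m0 := by
  unfold cnd
  rw [tk_length, tk_length, tk_take _ _ _ hk, List.take_of_length_le (by rw [tk_length]; exact hk)]

lemma cnd_take {u τ : Str} (h : cnd u τ) (j : ℕ) : cnd u (τ.take j) := by
  unfold cnd at *
  have h1 := congrArg (List.take j) h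
  rw [List.take_take, List.take_take] at h1
  rw [List.take_take, List.length_take, min_comm u.length j]
  exact h1

lemma cnd_cp (u : Str) : ComputablePred (fun τ : Str => cnd u τ) := by
  unfold cnd
  exact cp_eq (by fun_prop) (by fun_prop)

/-- compactness for the class -/
theorem Cls.compact {L : ℕ → List Str} {X : ℕ → Bool} (h : Cls L X) {m0 : ℕ}
    {Q : ℕ → Str → Prop} (hQ : ∀ j k τ, j ≤ k → Q j (τ.take j) → Q k τ)
    (hall : ∀ Z ∈ Pt L, tk Z m0 = tk X m0 → ∃ k, Q k (tk Z k)) :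
    ∃ k, ∀ τ ∈ L k, cnd (tk X m0) τ → Q k τ := by
  by_contra hcon
  push Not at hcon
  obtain ⟨Z, hZ⟩ := konig (A := fun k τ => τ ∈ L k ∧ cnd (tk X m0) τ ∧ ¬ Q k τ)
    (fun k τ h1 => h.len k τ h1.1)
    (fun k τ h1 => ⟨h.take _ τ h1.1 k (by omega), cnd_take h1.2.1 k,
      fun h2 => h1.2.2 (hQ k (k + 1) τ (by omega) h2)⟩)
    (fun k => by
      obtain ⟨τ, h1, h2, h3⟩ := hcon k
      exact ⟨τ, h1, h2, h3⟩)
  obtain ⟨k, hk⟩ := hall Z (fun k => (hZ k).1) ((cnd_tk le_rfl).1 (hZ m0).2.1)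
  exact (hZ k).2.2 hk

theorem Cls.not_computable {L : ℕ → List Str} {X : ℕ → Bool} (h : Cls L X) : ¬ Computable X := by
  intro hX
  have htk : Computable (fun n : ℕ => tk X n) := by
    unfold tk
    exact cmapP (f := fun n : ℕ => List.range n) (g := fun _ i => X i)
      Primrec.list_range.to_comp (hX.comp Computable.snd)
  obtain ⟨m0, h0 | h0⟩ := h.alt (fun σ _ => σ ≠ tk X σ.length) (by
    refine ne (by fun_prop) (htk.comp (by fun_prop)))
  · obtain ⟨Y, hY, hYX, h1⟩ := h.lim m0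
    obtain ⟨n, hn⟩ := h0 Y hY h1
    apply hYX
    funext i
    have h2 := hn (i + 1)
    simp only [ne_eq, not_not, tk_length] at h2
    rw [tk_succ, tk_succ] at h2
    have := (List.append_inj' h2 rfl).2
    simpa using this
  · obtain ⟨i, hi⟩ := h0 X h.mem rfl 0
    simp at hi

end Pool.Agent.NH86.NCR
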