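import Pool.Agent.NH86.NCR.Level

set_option autoImplicit false

/-! A nested construction of an effectively closed class: the limit. -/

namespace Pool.Agent.NH86.NCR

noncomputable def nextM (V : Env) : Str → Str := (level V).choose
noncomputable def nextV (V : Env) : Env := (level V).choose_spec.choose
lemma next_spec (V : Env) : LevelC V (nextM V) (nextV V) := (level V).choose_spec.choose_spec

noncomputable def VV (v : Env) : ℕ → Env
  | 0 => v
  | e + 1 => nextV (VV v e)

noncomputable def MM (v : Env) : ℕ → Str → Str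
  | 0 => id
  | e + 1 => fun σ => MM v e (nextM (VV v e) σ)

variable {v : Env}

lemma VV_eq (e : ℕ) : ∀ i σ n, VV v e i σ n = v (e + i) (MM v e σ) n := by
  induction e with
  | zero => intro i σ n; simp [VV, MM]
  | succ e ih =>
    intro i σ n
    show nextV (VV v e) i σ n = v (e + 1 + i) (MM v e (nextM (VV v e) σ)) n
    rw [(next_spec (VV v e)).1 i σ n, ih]
    congr 1
    omega

lemma MM_live (e : ℕ) : ∀ σ, σ ∈ live σ.length (VV v e) →
    MM v e σ ∈ live (MM v e σ).length v ∧ σ.length + e ≤ (MM v e σ).length := by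
  induction e with
  | zero => intro σ hσ; exact ⟨hσ, le_rfl⟩
  | succ e ih =>
    intro σ hσ
    obtain ⟨h1, h2⟩ := (next_spec (VV v e)).2.1 σ hσ
    obtain ⟨h3, h4⟩ := ih _ h1
    exact ⟨h3, by show _ ≤ (MM v e (nextM (VV v e) σ)).length; omega⟩

lemma MM_emb (e : ℕ) : ∀ σ τ, σ ∈ live σ.length (VV v e) → τ ∈ live τ.length (VV v e) →
    (MM v e σ <+: MM v e τ ↔ σ <+: τ) := by
  induction e with
  | zero => intro σ τ _ _; exact Iff.rfl
  | succ e ih =>
    intro σ τ hσ hτ
    have h1 := (next_spec (VV v e)).2.1 σ hσ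
    have h2 := (next_spec (VV v e)).2.1 τ hτ
    exact (ih _ _ h1.1 h2.1).trans ((next_spec (VV v e)).2.2.1 σ τ hσ hτ)

lemma nil_live (V : Env) : ([] : Str) ∈ live ([] : Str).length V := by
  show [] ∈ live 0 V
  rw [live_zero]; simp

lemma live_one (V : Env) : live 1 V = [[true], [false]] := by
  rw [live_succ]
  simp [outF, stN, hR, live_zero]

lemma PP_live {V : Env} {Z : ℕ → Bool} (h : Z ∈ PP V) (k : ℕ) :
    tk Z k ∈ live (tk Z k).length V := by
  rw [tk_length]; exact h k

lemma tk_pre (Z : ℕ → Bool) {j k : ℕ} (h : j ≤ k) : tk Z j <+: tk Z k := by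
  rw [← tk_take Z k j h]; exact List.take_prefix _ _

lemma MM_surj (e : ℕ) : ∀ Y ∈ PP v, Ini (MM v e []) Y →
    ∃ Z ∈ PP (VV v e), ∀ k, Ini (MM v e (tk Z k)) Y := by
  induction e with
  | zero => intro Y hY _; exact ⟨Y, hY, fun k => ini_tk Y k⟩
  | succ e ih =>
    intro Y hY hI
    have hI : Ini (MM v e (nextM (VV v e) [])) Y := hI
    have hnil := nil_live (VV v (e + 1))
    have hM := ((next_spec (VV v e)).2.1 [] hnil).1
    have h0 : Ini (MM v e []) Y :=
      hI.pre ((MM_emb e _ _ (nil_live _) hM).2 List.nil_prefix)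
    obtain ⟨Z, hZ, hZ2⟩ := ih Y hY h0
    have h1 : Ini (nextM (VV v e) []) Z := by
      have h2 := hI.cmp (hZ2 (nextM (VV v e) []).length)
      have h3 : Cmp (nextM (VV v e) []) (tk Z (nextM (VV v e) []).length) := by
        rcases h2 with h2 | h2
        · exact Or.inl ((MM_emb e _ _ hM (PP_live hZ _)).1 h2)
        · exact Or.inr ((MM_emb e _ _ (PP_live hZ _) hM).1 h2)
      exact h3.eq (by simp)
    obtain ⟨Z', hZ', hZ3⟩ := (next_spec (VV v e)).2.2.2.2.2.1 Z hZ h1
    refine ⟨Z', hZ', fun k => ?_⟩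
    show Ini (MM v e (nextM (VV v e) (tk Z' k))) Y
    have h4 := hZ3 k
    unfold Ini at h4
    rw [h4]
    exact hZ2 _

/-- the path of a path -/
lemma MM_path (e : ℕ) {Z : ℕ → Bool} (hZ : Z ∈ PP (VV v e)) :
    ∃ Y ∈ PP v, ∀ k, Ini (MM v e (tk Z k)) Y := by
  have hlen : ∀ k, k ≤ (MM v e (tk Z k)).length := by
    intro k
    have := (MM_live e _ (PP_live hZ k)).2
    rw [tk_length] at this
    omega
  have hmono : ∀ j k, j ≤ k → MM v e (tk Z j) <+: MM v e (tk Z k) :=
    fun j k h => (MM_emb e _ _ (PP_live hZ j) (PP_live hZ k)).2 (tk_pre Z h)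
  let Y : ℕ → Bool := fun i => (MM v e (tk Z (i + 1))).getD i false
  have hY : ∀ k, Ini (MM v e (tk Z k)) Y := by
    intro k
    unfold Ini
    apply List.ext_getElem
    · simp
    · intro i h1 h2
      rw [tk_get]
      show _ = (MM v e (tk Z (i + 1))).getD i false
      have h3 := hlen (i + 1)
      rw [List.getD_eq_getElem _ _ (by omega)]
      rcases le_total (i + 1) k with h | h
      · exact (List.IsPrefix.getElem (hmono _ _ h) _).symm
      · exact List.IsPrefix.getElem (hmono _ _ h) _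
  refine ⟨Y, fun k => ?_, hY⟩
  have h1 := (MM_live e _ (PP_live hZ k)).1
  have h2 := live_take h1 (hlen k)
  have h3 := hY k
  unfold Ini at h3
  rw [h3, tk_take _ _ _ (hlen k)] at h2
  exact h2

lemma beta_mono {d e : ℕ} (h : d ≤ e) : MM v d [] <+: MM v e [] := by
  induction e, h using Nat.le_induction with
  | base => exact List.prefix_rfl
  | succ e _ ih =>
    refine ih.trans ?_
    have hM := ((next_spec (VV v e)).2.1 [] (nil_live (VV v (e + 1)))).1
    exact (MM_emb e _ _ (nil_live _) hM).2 List.nil_prefix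

lemma beta_len (e : ℕ) : e ≤ (MM v e []).length := by
  have := (MM_live (v := v) e [] (nil_live _)).2
  simpa using this

noncomputable def XX (v : Env) : ℕ → Bool := fun i => (MM v (i + 1) []).getD i false

lemma XX_ini (e : ℕ) : Ini (MM v e []) (XX v) := by
  unfold Ini
  apply List.ext_getElem
  · simp
  · intro i h1 h2
    rw [tk_get]
    show _ = (MM v (i + 1) []).getD i false
    have h3 := beta_len (v := v) (i + 1)
    rw [List.getD_eq_getElem _ _ (by omega)]
    rcases le_total (i + 1) e with h | h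
    · exact (List.IsPrefix.getElem (beta_mono h) _).symm
    · exact List.IsPrefix.getElem (beta_mono h) _

lemma XX_mem : XX v ∈ PP v := by
  intro k
  have h1 := (MM_live (v := v) k [] (nil_live _)).1
  have h2 := live_take h1 (beta_len k)
  have h3 := XX_ini (v := v) k
  unfold Ini at h3
  rw [h3, tk_take _ _ _ (beta_len k)] at h2
  exact h2

lemma tk_eq_of_ini {s : Str} {Y Z : ℕ → Bool} (hY : Ini s Y) (hZ : Ini s Z) {m : ℕ}
    (hm : m ≤ s.length) : tk Y m = tk Z m := by
  rw [← tk_take Y s.length m hm, ← tk_take Z s.length m hm]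
  unfold Ini at hY hZ
  rw [← hY, ← hZ]

lemma ini_of_tk {s : Str} {Y Z : ℕ → Bool} (hZ : Ini s Z) (h : tk Y s.length = tk Z s.length) :
    Ini s Y := by
  unfold Ini at *
  rw [h]; exact hZ

lemma XX_limit (m : ℕ) : ∃ Y ∈ PP v, Y ≠ XX v ∧ tk Y m = tk (XX v) m := by
  let Z : ℕ → Bool := fun i => i == 0
  have hZ : Z ∈ PP (VV v m) := by
    intro k
    rcases k with _ | i
    · exact nil_live _
    · rw [mem_live]
      left
      apply List.ext_getElem
      · simp
      · intro j h1 h2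
        rw [tk_get]
        rcases j with _ | j
        · rfl
        · simp [Z]
  obtain ⟨Y, hY, hY2⟩ := MM_path m hZ
  refine ⟨Y, hY, ?_, tk_eq_of_ini (hY2 0) (XX_ini m) (beta_len m)⟩
  rintro rfl
  have h1 := hY2 1
  have e1 : tk Z 1 = [true] := rfl
  rw [e1] at h1
  have h2 := XX_ini (v := v) (m + 1)
  have hM := ((next_spec (VV v m)).2.1 [] (nil_live (VV v (m + 1)))).1
  have ht : ([true] : Str) ∈ live ([true] : Str).length (VV v m) := by
    show _ ∈ live 1 _
    rw [live_one]; simp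
  have hf : ([false] : Str) ∈ live ([false] : Str).length (VV v m) := by
    show _ ∈ live 1 _
    rw [live_one]; simp
  have h3 : Ini (MM v m [false]) (XX v) :=
    h2.pre ((MM_emb m _ _ hf hM).2 (next_spec (VV v m)).2.2.2.1)
  rcases h1.cmp h3 with h4 | h4
  · have := (MM_emb m _ _ ht hf).1 h4
    simp at this
  · have := (MM_emb m _ _ hf ht).1 h4
    simp at this

lemma ez_countable : {Z : ℕ → Bool | ∃ k0, ∀ k, k0 ≤ k → Z k = false}.Countable := by
  refine (Set.countable_range (fun s : Str => fun i => s.getD i false)).mono ?_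
  rintro Z ⟨k0, h⟩
  refine ⟨tk Z k0, ?_⟩
  funext i
  simp only
  by_cases hi : i < k0
  · rw [List.getD_eq_getElem _ _ (by simpa using hi), tk_get]
  · rw [List.getD_eq_default _ _ (by simpa using Nat.le_of_not_lt hi), h i (by omega)]

lemma ini_ext {Y Y' : ℕ → Bool} {s : ℕ → Str} (hs : ∀ k, k ≤ (s k).length)
    (h : ∀ k, Ini (s k) Y) (h' : ∀ k, Ini (s k) Y') : Y = Y' := by
  funext i
  have h1 := tk_eq_of_ini (h (i + 1)) (h' (i + 1)) (hs (i + 1))
  rw [tk_succ, tk_succ] at h1
  have := (List.append_inj' h1 rfl).2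
  simpa using this

lemma PP_countable : (PP v).Countable := by
  have hA : ∀ e, {Y | Y ∈ PP v ∧ Ini (MM v e []) Y ∧ ¬ Ini (MM v (e + 1) []) Y}.Countable := by
    intro e
    have h1 : {Y | Y ∈ PP v ∧ Ini (MM v e []) Y ∧ ¬ Ini (MM v (e + 1) []) Y} ⊆
        ⋃ Z ∈ {Z : ℕ → Bool | ∃ k0, ∀ k, k0 ≤ k → Z k = false},
          {Y | Z ∈ PP (VV v e) ∧ ∀ k, Ini (MM v e (tk Z k)) Y} := by
      rintro Y ⟨hY, h1, h2⟩
      obtain ⟨Z, hZ, hZ2⟩ := MM_surj e Y hY h1
      rw [Set.mem_iUnion₂]
      refine ⟨Z, ?_, hZ, hZ2⟩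
      refine (next_spec (VV v e)).2.2.2.2.1 Z hZ ?_
      intro h3
      apply h2
      show Ini (MM v e (nextM (VV v e) [])) Y
      unfold Ini at h3
      rw [h3]
      exact hZ2 _
    refine Set.Countable.mono h1 (Set.Countable.biUnion ez_countable (fun Z _ => ?_))
    refine Set.Subsingleton.countable ?_
    rintro Y ⟨h2, h3⟩ Y' ⟨_, h4⟩
    refine ini_ext (s := fun k => MM v e (tk Z k)) (fun k => ?_) h3 h4
    have := (MM_live e _ (PP_live h2 k)).2
    rw [tk_length] at this
    omega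
  have h2 : PP v ⊆ {XX v} ∪ ⋃ e, {Y | Y ∈ PP v ∧ Ini (MM v e []) Y ∧
      ¬ Ini (MM v (e + 1) []) Y} := by
    classical
    intro Y hY
    by_cases hX : Y = XX v
    · left; exact hX
    · right
      have hex : ∃ e, ¬ Ini (MM v e []) Y := by
        by_contra hcon
        push Not at hcon
        exact hX (ini_ext (s := fun k => MM v k []) beta_len hcon XX_ini)
      have h3 := Nat.find_spec hex
      have h4 := fun {d} => @Nat.find_min _ _ hex d
      generalize Nat.find hex = e at h3 h4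
      rcases e with _ | e
      · exact absurd rfl h3
      · rw [Set.mem_iUnion]
        refine ⟨e, hY, ?_, h3⟩
        have := @h4 e (by omega)
        simpa using this
  exact ((Set.countable_singleton _).union (Set.countable_iUnion hA)).mono h2

theorem core (hv : ∀ e σ τ n, σ <+: τ → v e σ n = true → v e τ n = true) :
    ∃ X ∈ PP v, (∀ m, ∃ Y ∈ PP v, Y ≠ X ∧ tk Y m = tk X m) ∧ (PP v).Countable ∧
      ∀ e, ∃ m, (∃ n, ∀ Y ∈ PP v, tk Y m = tk X m → ∀ i, v e (tk Y i) n = false) ∨
        (∀ Y ∈ PP v, tk Y m = tk X m → ∀ n, ∃ i, v e (tk Y i) n = true) := by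
  refine ⟨XX v, XX_mem, XX_limit, PP_countable, fun e => ⟨(MM v (e + 1) []).length, ?_⟩⟩
  have hsur : ∀ Y ∈ PP v, tk Y (MM v (e + 1) []).length = tk (XX v) (MM v (e + 1) []).length →
      ∃ Z ∈ PP (VV v (e + 1)), ∀ k, Ini (MM v (e + 1) (tk Z k)) Y :=
    fun Y hY h => MM_surj (e + 1) Y hY (ini_of_tk (XX_ini (e + 1)) h)
  rcases (next_spec (VV v e)).2.2.2.2.2.2 with ⟨n, j0, hn⟩ | ht
  · left
    refine ⟨n, fun Y hY h i => ?_⟩
    obtain ⟨Z, hZ, hZ2⟩ := hsur Y hY h
    have h1 := hn (max j0 i) (le_max_left _ _) (tk Z (max j0 i)) (hZ _)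
    rw [VV_eq] at h1
    have h2 : (tk Y i) <+: MM v (e + 1) (tk Z (max j0 i)) := by
      have h3 := hZ2 (max j0 i)
      unfold Ini at h3
      rw [h3]
      refine tk_pre Y ?_
      have := (MM_live (e + 1) _ (PP_live hZ (max j0 i))).2
      rw [tk_length] at this
      have := le_max_right j0 i
      omega
    by_contra hc
    have hc : v e (tk Y i) n = true := by simpa using hc
    have h4 := hv _ _ _ _ h2 hc
    rw [show MM v (e + 1) (tk Z (max j0 i)) = MM v e (nextM (VV v e) (tk Z (max j0 i))) from rfl]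
      at h4
    rw [Nat.add_zero] at h1
    rw [h1] at h4
    exact Bool.noConfusion h4
  · right
    intro Y hY h n
    obtain ⟨Z, hZ, hZ2⟩ := hsur Y hY h
    have h1 := ht n (tk Z n) (hZ n)
    rw [VV_eq, Nat.add_zero] at h1
    have h2 := hZ2 n
    unfold Ini at h2
    refine ⟨(MM v (e + 1) (tk Z n)).length, ?_⟩
    rw [← h2]
    exact h1

end Pool.Agent.NH86.NCR
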