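import Pool.Agent.NH86.NCR.Core
import Pool.Agent.Helper446.Comp

set_option autoImplicit false

/-! A nested construction of an effectively closed class: it is computable. -/

namespace Pool.Agent.NH86.NCR

open Encodable Nat.Partrec Pool.Agent.Helper446.RE

section tools

variable {α β γ : Type*} [Primcodable α] [Primcodable β] [Primcodable γ]

@[fun_prop] theorem ctail {f : α → List β} (hf : Computable f) :
    Computable (fun x => (f x).tail) := Primrec.list_tail.to_comp.comp hf

@[fun_prop] theorem cheadI [Inhabited β] {f : α → List β} (hf : Computable f) :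
    Computable (fun x => (f x).headI) := Primrec.list_headI.to_comp.comp hf

@[fun_prop] theorem creplicate (b : β) {f : α → ℕ} (hf : Computable f) :
    Computable (fun x => List.replicate (f x) b) := by
  have h : Primrec (fun n : ℕ => List.replicate n b) := by
    refine (Primrec.list_map Primrec.list_range (Primrec.const b).to₂).of_eq fun n => ?_
    rw [List.map_const', List.length_range]
  exact h.to_comp.comp hf

@[fun_prop] theorem cgetD {b : β} {f : α → Option β} (hf : Computable f) :
    Computable (fun x => (f x).getD b) :=
  (Primrec.option_getD.comp Primrec.id (Primrec.const b)).to_comp.comp hf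

@[fun_prop] theorem ctake {f : α → List β} {g : α → ℕ} (hf : Computable f) (hg : Computable g) :
    Computable (fun x => (f x).take (g x)) := Primrec.list_take.to_comp.comp hg hf

@[fun_prop] theorem cdropLast {f : α → List β} (hf : Computable f) :
    Computable (fun x => (f x).dropLast) := by
  have : Computable (fun x => (f x).take ((f x).length - 1)) := by fun_prop
  exact this.of_eq fun x => (List.dropLast_eq_take).symm

@[fun_prop] theorem cgetLastD {b : β} {f : α → List β} (hf : Computable f) :
    Computable (fun x => (f x).getLastD b) := by
  have : Computable (fun x => ((f x)[(f x).length - 1]?).getD b) := by fun_prop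
  refine this.of_eq fun x => ?_
  rw [List.getLastD_eq_getLast?, List.getLast?_eq_getElem?]

@[fun_prop] theorem clookup [DecidableEq β] {f : α → β} {g : α → List (β × γ)}
    (hf : Computable f) (hg : Computable g) : Computable (fun x => (g x).lookup (f x)) :=
  Primrec.listLookup.to_comp.comp hf hg

theorem cmapP {f : α → List β} {g : α → β → γ} (hf : Computable f)
    (hg : Computable (fun x : α × β => g x.1 x.2)) : Computable (fun a => (f a).map (g a)) := by
  have h1 : Computable₂ (fun (a : α) (x : List γ × β) => x.1 ++ [g a x.2]) := by
    unfold Computable₂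
    have : Computable (fun x : α × (List γ × β) => g x.1 x.2.2) :=
      hg.comp (f := fun x : α × β => g x.1 x.2) (g := fun x : α × (List γ × β) => (x.1, x.2.2))
        (by fun_prop)
    fun_prop
  refine (list_foldl hf (Computable.const ([] : List γ)) h1).of_eq fun a => ?_
  have : ∀ (l : List β) (s : List γ),
      l.foldl (fun s b => s ++ [g a b]) s = s ++ l.map (g a) := by
    intro l
    induction l with
    | nil => intro s; simp
    | cons b l ih => intro s; rw [List.foldl_cons, ih]; simp
  rw [this]; simp

theorem cfindP {f : α → List β} {g : α → β → Bool} (hf : Computable f)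
    (hg : Computable (fun x : α × β => g x.1 x.2)) : Computable (fun a => (f a).find? (g a)) := by
  have h1 : Computable₂ (fun (a : α) (x : Option β × β) =>
      bif x.1.isSome then x.1 else bif g a x.2 then some x.2 else none) := by
    unfold Computable₂
    have : Computable (fun x : α × (Option β × β) => g x.1 x.2.2) :=
      hg.comp (f := fun x : α × β => g x.1 x.2) (g := fun x : α × (Option β × β) => (x.1, x.2.2))
        (by fun_prop)
    fun_prop
  refine (list_foldl hf (Computable.const (none : Option β)) h1).of_eq fun a => ?_
  have : ∀ (l : List β) (s : Option β),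
      l.foldl (fun (s : Option β) b => bif s.isSome then s else bif g a b then some b else none) s =
        s.or (l.find? (g a)) := by
    intro l
    induction l with
    | nil => intro s; simp
    | cons b l ih =>
      intro s
      rw [List.foldl_cons, ih, List.find?_cons]
      cases s with
      | some x => simp
      | none => cases g a b <;> simp
  rw [this]; simp

end tools

@[fun_prop] theorem cpad {α : Type*} [Primcodable α] {f : α → ℕ} {g : α → Str}
    (hf : Computable f) (hg : Computable g) : Computable (fun x => pad (f x) (g x)) := by
  unfold pad; fun_prop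

lemma lookup_inst (T : Tab) (s : Str) :
    @List.lookup Str Str instBEqOfDecidableEq s T = List.lookup s T := by
  have h : (instBEqOfDecidableEq : BEq Str) = List.instBEq := by
    refine congrArg BEq.mk (?_ : (instBEqOfDecidableEq : BEq Str).beq = List.instBEq.beq)
    funext a b
    by_cases hab : a = b
    · subst hab
      have h1 : (@BEq.beq Str instBEqOfDecidableEq a a) = true := by simp
      have h2 : (@BEq.beq Str List.instBEq a a) = true := by simp
      rw [h1, h2]
    · have h1 : (@BEq.beq Str instBEqOfDecidableEq a b) = false := by simp [hab]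
      have h2 : (@BEq.beq Str List.instBEq a b) = false := by simp [hab]
      rw [h1, h2]
  rw [h]

@[fun_prop] theorem clk {α : Type*} [Primcodable α] {f : α → Tab} {g : α → Str}
    (hf : Computable f) (hg : Computable g) : Computable (fun x => lk (f x) (g x)) := by
  unfold lk
  refine (cgetD (b := ([] : Str)) (clookup hg hf)).of_eq fun x => ?_
  rw [lookup_inst]

@[fun_prop] theorem chR {α : Type*} [Primcodable α] {f : α → St}
    (hf : Computable f) : Computable (fun x => hR (f x)) := by
  unfold hR; fun_prop

@[fun_prop] theorem chA {α : Type*} [Primcodable α] {f : α → St}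
    (hf : Computable f) : Computable (fun x => hA (f x)) := by
  unfold hA; fun_prop

@[fun_prop] theorem cnewT {α : Type*} [Primcodable α] {f : α → St} {g : α → Str}
    (hf : Computable f) (hg : Computable g) : Computable (fun x => newT (f x) (g x)) := by
  unfold newT; fun_prop

theorem cmapnewP {α : Type*} [Primcodable α] {f : α → ℕ} {g : α → Tab} {l : α → List Str}
    (hf : Computable f) (hg : Computable g) (hl : Computable l) :
    Computable (fun x => (l x).map (newP (f x) (g x))) := by
  refine cmapP hl ?_
  unfold newP
  fun_prop

/-- the step, as a function of the search result -/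
def stepQ (o : Option Str) (k : ℕ) (st : St) (q2 : List Str) : St :=
  bif o.isSome then
    bif st.2.2.tail.length.ble 0 then
      ((st.1.1 + 1, newT st (o.getD [])), ([], q2.map (newP k (newT st (o.getD [])))))
    else (st.1, (st.2.1 ++ [(hA st, hR st ++ o.getD [])],
      (st.2.2.tail.headI.1, pad (k + 1) st.2.2.tail.headI.2) :: st.2.2.tail.tail))
  else st

lemma stepQ_eq (c : Str → ℕ → Bool) (k : ℕ) (st : St) (q1 q2 : List Str) :
    step c k st q1 q2 = stepQ (fnd c st q1) k st q2 := by
  unfold step stepQ
  cases fnd c st q1 with
  | none => rfl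
  | some b =>
    cases h : st.2.2.tail with
    | nil => rfl
    | cons p pd => rfl

theorem cstepQ {α : Type*} [Primcodable α] {o : α → Option Str} {k : α → ℕ} {st : α → St}
    {q : α → List Str} (ho : Computable o) (hk : Computable k) (hst : Computable st)
    (hq : Computable q) : Computable (fun x => stepQ (o x) (k x) (st x) (q x)) := by
  unfold stepQ
  have h1 : Computable (fun x => (q x).map (newP (k x) (newT (st x) ((o x).getD [])))) :=
    cmapnewP hk (by fun_prop) hq
  have h2 : Computable (fun x => (st x).2.2.tail.length.ble 0) := by
    have : Computable (fun n : ℕ => n.ble 0) := by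
      refine (Primrec.nat_le.decide.comp Primrec.id (Primrec.const 0)).to_comp.of_eq fun n => ?_
      cases n <;> rfl
    exact this.comp (by fun_prop)
  fun_prop

theorem coutF {α : Type*} [Primcodable α] {k : α → ℕ} {st : α → St}
    {q : α → List Str} (hk : Computable k) (hst : Computable st)
    (hq : Computable q) : Computable (fun x => outF (k x) (st x) (q x)) := by
  unfold outF
  have h1 : Computable (fun x => (st x).2.1.map (fun p => pad (k x) p.2)) :=
    cmapP (by fun_prop) (by fun_prop)
  have h2 : Computable (fun x => (q x).map (fun b => hR (st x) ++ b)) :=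
    cmapP (by fun_prop) (by fun_prop)
  have h3 : Computable (fun x => (st x).2.2.tail.map (fun p => pad (k x) p.2)) :=
    cmapP (by fun_prop) (by fun_prop)
  fun_prop

/-! finite descriptions of environments -/

abbrev Mv := Bool × (Str × Tab)

def app (m : Mv) (s : Str) : Str := bif m.1 then lk m.2.2 s else m.2.1 ++ s

def interp (d : List Mv) (s : Str) : Str := d.foldl (fun s m => app m s) s

def env (v : Env) (d : List Mv) : Env := fun e s n => v (d.length + e) (interp d s) n

lemma sh_env (v : Env) (d : List Mv) (r : Str) :
    sh (env v d) r = env v ((false, (r, [])) :: d) := by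
  funext e s n
  unfold sh env
  have : d.length + (e + 1) = ((false, (r, ([] : Tab))) :: d).length + e := by simp; omega
  rw [this]
  rfl

lemma cm_env (v : Env) (d : List Mv) (T : Tab) :
    cm (env v d) T = env v ((true, ([], T)) :: d) := by
  funext e s n
  unfold cm env
  have : d.length + (e + 1) = ((true, (([] : Str), T)) :: d).length + e := by simp; omega
  rw [this]
  rfl

theorem cinterp {α : Type*} [Primcodable α] {f : α → List Mv} {g : α → Str}
    (hf : Computable f) (hg : Computable g) : Computable (fun x => interp (f x) (g x)) := by
  unfold interp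
  refine list_foldl (h := fun _ x => app x.2 x.1) hf hg ?_
  unfold Computable₂ app
  fun_prop

/-- the search, with a finite description of the environment -/
def fndD (v : Env) (d : List Mv) (st : St) (q : List Str) : Option Str :=
  q.find? (fun b => v d.length (interp d (hR st ++ b)) st.1.1)

lemma fndD_eq (v : Env) (d : List Mv) (st : St) (q : List Str) :
    fnd (env v d 0) st q = fndD v d st q := by
  unfold fnd fndD env
  rfl

theorem cfndD {v : Env} (hv : Computable (fun x : ℕ × (Str × ℕ) => v x.1 x.2.1 x.2.2))
    {α : Type*} [Primcodable α] {d : α → List Mv} {st : α → St}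
    {q : α → List Str} (hd : Computable d) (hst : Computable st)
    (hq : Computable q) : Computable (fun x => fndD v (d x) (st x) (q x)) := by
  unfold fndD
  refine cfindP hq ?_
  have h1 : Computable (fun x : α × Str => interp (d x.1) (hR (st x.1) ++ x.2)) :=
    cinterp (by fun_prop) (by fun_prop)
  exact hv.comp (f := fun x : ℕ × (Str × ℕ) => v x.1 x.2.1 x.2.2)
    (g := fun x : α × Str => ((d x.1).length, (interp (d x.1) (hR (st x.1) ++ x.2),
      (st x.1).1.1))) (by fun_prop)

/-! the recursion theorem -/

/-- evaluation of codes on typed arguments -/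
def Ev (α β : Type*) [Primcodable α] [Primcodable β] (c : Code) (a : α) : Part β :=
  (c.eval (encode a)).bind (fun y => (decode (α := β) y : Part β))

theorem ev_part {α β : Type*} [Primcodable α] [Primcodable β] : Partrec₂ (Ev α β) := by
  unfold Partrec₂ Ev
  refine Partrec.bind (f := fun x : Code × α => x.1.eval (encode x.2))
    (g := fun (_ : Code × α) (y : ℕ) => (decode (α := β) y : Part β)) ?_ ?_
  · exact Code.eval_part.comp Computable.fst (Computable.encode.comp Computable.snd)
  · exact (Computable.decode.comp Computable.snd).ofOption

theorem rec_thm {α β : Type*} [Primcodable α] [Primcodable β] {F : Code → α →. β}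
    (hF : Partrec₂ F) : ∃ c : Code, ∀ a, Ev α β c a = F c a := by
  have h1 : Partrec₂ (fun (c : Code) (n : ℕ) => ((decode (α := α) n : Part α).bind
      (fun a => (F c a).map encode) : Part ℕ)) := by
    unfold Partrec₂
    refine Partrec.bind (f := fun x : Code × ℕ => (decode (α := α) x.2 : Part α))
      (g := fun (x : Code × ℕ) (a : α) => (F x.1 a).map encode) ?_ ?_
    · exact (Computable.decode.comp Computable.snd).ofOption
    · unfold Partrec₂
      have h2 : Partrec (fun p : (Code × ℕ) × α => F p.1.1 p.2) :=
        hF.comp (Computable.fst.comp Computable.fst) Computable.snd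
      exact h2.map (Computable.encode.comp Computable.snd).to₂
  obtain ⟨c, hc⟩ := Code.fixed_point₂ h1
  refine ⟨c, fun a => ?_⟩
  unfold Ev
  rw [hc]
  simp only [encodek, Part.coe_some, Part.bind_some]
  rw [Part.bind_map]
  simp only [encodek, Part.coe_some]
  exact Part.bind_some_right _

abbrev EvL := Ev (ℕ × List Mv) (List Str)

/-- one step -/
def nxP (v : Env) (c : Code) (d : List Mv) (j : ℕ) (st : St) : Part St :=
  (EvL c (j + 1 - (hR st).length, (false, (hR st, [])) :: d)).bind fun q1 =>
    (EvL c (st.1.1 + 1, (true, ([], newT st ((fndD v d st q1).getD []))) :: d)).map fun q2 =>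
      stepQ (fndD v d st q1) (j + 1) st q2

def stP (v : Env) (c : Code) (d : List Mv) (i : ℕ) : Part St :=
  Nat.rec (motive := fun _ => Part St) (Part.some ((0, []), ([], [([], [false])])))
    (fun j ih => ih.bind fun st => nxP v c d j st) i

def body (v : Env) (c : Code) (x : ℕ × List Mv) : Part (List Str) :=
  bif x.1.ble 0 then Part.some [[]] else
    (stP v c x.2 (x.1 - 1)).bind fun st =>
      (EvL c (x.1 - (hR st).length, (false, (hR st, [])) :: x.2)).map fun q => outF x.1 st q

theorem nxP_part {v : Env} (hv : Computable (fun x : ℕ × (Str × ℕ) => v x.1 x.2.1 x.2.2)) :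
    Partrec (fun x : (Code × List Mv) × (ℕ × St) => nxP v x.1.1 x.1.2 x.2.1 x.2.2) := by
  unfold nxP
  refine Partrec.bind (f := fun x : (Code × List Mv) × (ℕ × St) =>
    EvL x.1.1 (x.2.1 + 1 - (hR x.2.2).length, (false, (hR x.2.2, [])) :: x.1.2))
    (g := fun (x : (Code × List Mv) × (ℕ × St)) (q1 : List Str) =>
      (EvL x.1.1 (x.2.2.1.1 + 1, (true, ([], newT x.2.2 ((fndD v x.1.2 x.2.2 q1).getD []))) ::
        x.1.2)).map fun q2 => stepQ (fndD v x.1.2 x.2.2 q1) (x.2.1 + 1) x.2.2 q2) ?_ ?_
  · refine ev_part.comp (by fun_prop) ?_
    fun_prop
  · unfold Partrec₂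
    have hf : Computable (fun x : ((Code × List Mv) × (ℕ × St)) × List Str =>
        fndD v x.1.1.2 x.1.2.2 x.2) := cfndD hv (by fun_prop) (by fun_prop) (by fun_prop)
    refine Partrec.map (f := fun x : ((Code × List Mv) × (ℕ × St)) × List Str =>
      EvL x.1.1.1 (x.1.2.2.1.1 + 1, (true, ([], newT x.1.2.2
        ((fndD v x.1.1.2 x.1.2.2 x.2).getD []))) :: x.1.1.2))
      (g := fun (x : ((Code × List Mv) × (ℕ × St)) × List Str) (q2 : List Str) =>
        stepQ (fndD v x.1.1.2 x.1.2.2 x.2) (x.1.2.1 + 1) x.1.2.2 q2) ?_ ?_
    · refine ev_part.comp (by fun_prop) ?_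
      fun_prop
    · unfold Computable₂
      refine cstepQ ?_ (by fun_prop) (by fun_prop) (by fun_prop)
      exact hf.comp Computable.fst

theorem stP_part {v : Env} (hv : Computable (fun x : ℕ × (Str × ℕ) => v x.1 x.2.1 x.2.2)) :
    Partrec (fun x : (Code × List Mv) × ℕ => stP v x.1.1 x.1.2 x.2) := by
  unfold stP
  refine Partrec.nat_rec (f := fun x : (Code × List Mv) × ℕ => x.2)
    (g := fun _ : (Code × List Mv) × ℕ => Part.some (((0, []), ([], [([], [false])])) : St))
    (h := fun (x : (Code × List Mv) × ℕ) (y : ℕ × St) => nxP v x.1.1 x.1.2 y.1 y.2)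
    (by fun_prop) (Computable.const _).partrec ?_
  exact (nxP_part hv).comp (f := fun x : (Code × List Mv) × (ℕ × St) =>
    nxP v x.1.1 x.1.2 x.2.1 x.2.2)
    (g := fun x : ((Code × List Mv) × ℕ) × (ℕ × St) => (x.1.1, x.2)) (by fun_prop)

theorem body_part {v : Env} (hv : Computable (fun x : ℕ × (Str × ℕ) => v x.1 x.2.1 x.2.2)) :
    Partrec₂ (body v) := by
  unfold Partrec₂ body
  have hb : Computable (fun x : Code × (ℕ × List Mv) => x.2.1.ble 0) := by
    have : Computable (fun n : ℕ => n.ble 0) := by
      refine (Primrec.nat_le.decide.comp Primrec.id (Primrec.const 0)).to_comp.of_eq fun n => ?_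
      cases n <;> rfl
    exact this.comp (by fun_prop)
  refine Partrec.cond hb (Computable.const _).partrec ?_
  refine Partrec.bind (f := fun x : Code × (ℕ × List Mv) => stP v x.1 x.2.2 (x.2.1 - 1))
    (g := fun (x : Code × (ℕ × List Mv)) (st : St) =>
      (EvL x.1 (x.2.1 - (hR st).length, (false, (hR st, [])) :: x.2.2)).map
        fun q => outF x.2.1 st q) ?_ ?_
  · exact (stP_part hv).comp (f := fun x : (Code × List Mv) × ℕ => stP v x.1.1 x.1.2 x.2)
      (g := fun x : Code × (ℕ × List Mv) => ((x.1, x.2.2), x.2.1 - 1)) (by fun_prop)
  · unfold Partrec₂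
    refine Partrec.map (f := fun x : (Code × (ℕ × List Mv)) × St =>
      EvL x.1.1 (x.1.2.1 - (hR x.2).length, (false, (hR x.2, [])) :: x.1.2.2))
      (g := fun (x : (Code × (ℕ × List Mv)) × St) (q : List Str) => outF x.1.2.1 x.2 q) ?_ ?_
    · refine ev_part.comp (by fun_prop) ?_
      fun_prop
    · unfold Computable₂
      exact coutF (by fun_prop) (by fun_prop) (by fun_prop)

theorem live_computable {v : Env}
    (hv : Computable (fun x : ℕ × (Str × ℕ) => v x.1 x.2.1 x.2.2)) :
    Computable (fun k => live k v) := by
  obtain ⟨c, hc⟩ := rec_thm (body_part hv)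
  have key : ∀ k d, EvL c (k, d) = Part.some (live k (env v d)) := by
    intro k
    induction k using Nat.strong_induction_on with
    | _ k ih =>
      intro d
      show Ev (ℕ × List Mv) (List Str) c (k, d) = _
      rw [hc]
      unfold body
      rcases k with _ | m
      · show Part.some [[]] = _
        rw [live_zero]
      · have hb : Nat.ble (m + 1) 0 = false := by
          rw [Bool.eq_false_iff, ne_eq, Nat.ble_eq]; omega
        simp only [hb, cond_false, Nat.add_sub_cancel]
        have hst : ∀ i, i ≤ m → stP v c d i = Part.some (stN live (env v d) i) := by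
          intro i
          induction i with
          | zero => intro _; rfl
          | succ i ihi =>
            intro hi
            show (stP v c d i).bind (fun st => nxP v c d i st) = _
            rw [ihi (by omega), Part.bind_some]
            have h1 := hR_pos (env v d) i
            have h2 := (inv1 (env v d) i).nle
            rw [stN_succ]
            generalize stN live (env v d) i = st at *
            unfold nxP nxt
            rw [ih _ (by omega), Part.bind_some, ← sh_env, ih _ (by omega), Part.map_some,
              ← cm_env, stepQ_eq, fndD_eq]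
        rw [hst m le_rfl, Part.bind_some]
        have h1 := hR_pos (env v d) m
        have h2 := live_succ m (env v d)
        show (EvL c (m + 1 - (hR (stN live (env v d) m)).length,
          (false, (hR (stN live (env v d) m), [])) :: d)).map
            (fun q => outF (m + 1) (stN live (env v d) m) q) = _
        rw [ih _ (by omega), Part.map_some, ← sh_env, ← h2]
  have e : env v [] = v := by
    funext e s n
    unfold env interp
    simp
  have h3 : Partrec (fun k : ℕ => EvL c (k, ([] : List Mv))) :=
    ev_part.comp (Computable.const c) (by fun_prop)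
  refine Partrec.of_eq h3 (fun k => ?_)
  rw [key k [], e]
  rfl

end Pool.Agent.NH86.NCR
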