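import Pool.Agent.NH86.NCR.Proc2

set_option autoImplicit false

/-! A nested construction of an effectively closed class: one level. -/

namespace Pool.Agent.NH86.NCR

/-- initial segments -/
def tk (Z : ℕ → Bool) (k : ℕ) : Str := (List.range k).map Z

@[simp] lemma tk_length (Z : ℕ → Bool) (k : ℕ) : (tk Z k).length = k := by simp [tk]

lemma tk_succ (Z : ℕ → Bool) (k : ℕ) : tk Z (k + 1) = tk Z k ++ [Z k] := by
  simp [tk, List.range_succ]

@[simp] lemma tk_get (Z : ℕ → Bool) (k i : ℕ) (h : i < (tk Z k).length) : (tk Z k)[i] = Z i := by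
  simp [tk]

lemma tk_take (Z : ℕ → Bool) (k j : ℕ) (h : j ≤ k) : (tk Z k).take j = tk Z j := by
  apply List.ext_getElem
  · simp; omega
  · intro i h1 h2; simp

/-- `s` is an initial segment of `Z` -/
def Ini (s : Str) (Z : ℕ → Bool) : Prop := s = tk Z s.length

lemma Ini.pre {s t : Str} {Z : ℕ → Bool} (h : Ini t Z) (hs : s <+: t) : Ini s Z := by
  unfold Ini at *
  have h1 := hs.length_le
  rw [List.prefix_iff_eq_take] at hs
  rw [h, tk_take _ _ _ h1] at hs
  exact hs

lemma ini_tk (Z : ℕ → Bool) (k : ℕ) : Ini (tk Z k) Z := by unfold Ini; simp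

lemma Ini.pre_tk {s : Str} {Z : ℕ → Bool} (h : Ini s Z) {k : ℕ} (hk : s.length ≤ k) :
    s <+: tk Z k := by
  rw [List.prefix_iff_eq_take, tk_take _ _ _ hk]; exact h

lemma Ini.cmp {s t : Str} {Z : ℕ → Bool} (h : Ini s Z) (h' : Ini t Z) : Cmp s t :=
  cmp_of_pre (h.pre_tk (le_max_left _ _)) (h'.pre_tk (le_max_right _ _))

/-- paths -/
def PP (V : Env) : Set (ℕ → Bool) := {Z | ∀ k, tk Z k ∈ live k V}

/-- no success at index `i` -/
def NoS (V : Env) (i : ℕ) : Prop := fnd (V 0) (stN live V i)
  (live (i + 1 - (hR (stN live V i)).length) (sh V (hR (stN live V i)))) = none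

lemma stN_of_noS {V : Env} {i : ℕ} (h : NoS V i) : stN live V (i + 1) = stN live V i := by
  rw [stN_succ]
  unfold nxt
  exact step_none h

lemma stN_const {V : Env} {k0 : ℕ} (h : ∀ i, k0 ≤ i → NoS V i) (d : ℕ) :
    stN live V (k0 + d) = stN live V k0 := by
  induction d with
  | zero => rfl
  | succ d ih => rw [← Nat.add_assoc, stN_of_noS (h _ (by omega)), ih]

lemma stN_const' {V : Env} {k0 k1 : ℕ} (h : ∀ i, k0 ≤ i → i < k1 → NoS V i) (hk : k0 ≤ k1) :
    stN live V k1 = stN live V k0 := by
  induction k1, hk using Nat.le_induction with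
  | base => rfl
  | succ k1 hk ih => rw [stN_of_noS (h _ hk (by omega)), ih (fun i h1 h2 => h i h1 (by omega))]

lemma st_cases (V : Env) (i : ℕ) : ∃ n T dn a r pd, stN live V i = ((n, T), (dn, (a, r) :: pd)) := by
  have hne := (inv1 V i).ne
  generalize stN live V i = st at hne
  obtain ⟨⟨n, T⟩, ⟨dn, pd⟩⟩ := st
  obtain ⟨⟨a, r⟩, pd, rfl⟩ := List.exists_cons_of_ne_nil hne
  exact ⟨n, T, dn, a, r, pd, rfl⟩

lemma held {V : Env} {i : ℕ} {p : Str × Str}
    (h : p ∈ (stN live V i).2.1 ∨ p ∈ (stN live V i).2.2.tail) :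
    ¬ Cmp p.2 (hR (stN live V i)) := by
  have hI := inv V i
  obtain ⟨n, T, dn, a, r, pd, hst⟩ := st_cases V i
  rw [hst] at h hI ⊢
  have e1 : hR ((n, T), (dn, (a, r) :: pd)) = r := rfl
  rw [e1]
  simp only [List.tail_cons] at h
  intro hc
  have hnd : ((dn ++ (a, r) :: pd).map Prod.fst).Nodup := by
    have := hI.adr
    simp only at this
    rw [this]
    exact live_nodup _ _
  have hnd2 : (dn ++ (a, r) :: pd).Nodup := List.Nodup.of_map _ hnd
  have hp : p ∈ dn ++ (a, r) :: pd := by
    rcases h with h | h <;> simp [h]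
  have : p = (a, r) := List.inj_on_of_nodup_map hnd hp (by simp) (hI.inc p hp (a, r) (by simp) hc)
  rw [List.nodup_append, List.nodup_cons] at hnd2
  subst this
  rcases h with h | h
  · exact hnd2.2.2 _ h _ (by simp) rfl
  · exact hnd2.2.1.1 h

lemma hR_f0 (V : Env) (i : ℕ) : [false] <+: hR (stN live V i) := by
  have hI := inv V i
  obtain ⟨n, T, dn, a, r, pd, hst⟩ := st_cases V i
  rw [hst] at hI ⊢
  exact hI.f0 (a, r) (by simp)

lemma pad_last {s : Str} {Z : ℕ → Bool} {i : ℕ} (h : pad (i + 1) s = tk Z (i + 1))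
    (hs : s.length ≤ i) : Z i = false := by
  unfold pad at h
  have e : i + 1 - s.length = (i - s.length) + 1 := by omega
  rw [e, List.replicate_succ', ← List.append_assoc, tk_succ] at h
  have := (List.append_inj' h rfl).2
  simpa using this.symm

lemma true_last {Z : ℕ → Bool} {i : ℕ} (h : tk Z (i + 1) = true :: List.replicate i false)
    (hi : 1 ≤ i) : Z i = false := by
  obtain ⟨j, rfl⟩ : ∃ j, i = j + 1 := ⟨i - 1, by omega⟩
  rw [List.replicate_succ', ← List.cons_append, tk_succ] at h
  have := (List.append_inj' h rfl).2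
  simpa using this

lemma true_ini {Z : ℕ → Bool} {i : ℕ} (h : tk Z (i + 1) = true :: List.replicate i false)
    (h0 : Ini [false] Z) : False := by
  have h1 := h0.pre_tk (k := i + 1) (by simp)
  rw [h] at h1
  obtain ⟨u, hu⟩ := h1
  simp at hu

/-- the conclusion for one level -/
def LevelC (V : Env) (M : Str → Str) (V' : Env) : Prop :=
  (∀ e σ n, V' e σ n = V (e + 1) (M σ) n) ∧
  (∀ σ, σ ∈ live σ.length V' → M σ ∈ live (M σ).length V ∧ σ.length + 1 ≤ (M σ).length) ∧
  (∀ σ τ, σ ∈ live σ.length V' → τ ∈ live τ.length V' → (M σ <+: M τ ↔ σ <+: τ)) ∧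
  [false] <+: M [] ∧
  (∀ Z ∈ PP V, ¬ Ini (M []) Z → ∃ k0, ∀ k, k0 ≤ k → Z k = false) ∧
  (∀ Z ∈ PP V, Ini (M []) Z → ∃ Z' ∈ PP V', ∀ k, Ini (M (tk Z' k)) Z) ∧
  ((∃ n j0, ∀ j, j0 ≤ j → ∀ β ∈ live j V', V 0 (M β) n = false) ∨
    (∀ n, ∀ β ∈ live n V', V 0 (M β) n = true))

lemma level_f {V : Env} {k0 : ℕ} (h : ∀ i, k0 ≤ i → NoS V i) :
    LevelC V (fun β => hR (stN live V k0) ++ β) (sh V (hR (stN live V k0))) := by
  have hc : ∀ i, k0 ≤ i → stN live V i = stN live V k0 := by
    intro i hi
    obtain ⟨d, rfl⟩ := Nat.exists_eq_add_of_le hi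
    exact stN_const h d
  have hrle := hR_le V k0
  have hrpos := hR_pos V k0
  generalize hr : hR (stN live V k0) = r at *
  refine ⟨fun e σ n => rfl, ?_, ?_, ?_, ?_, ?_, ?_⟩
  · intro σ hσ
    simp only [List.length_append]
    have h1 := (inv V (max k0 (r.length + σ.length))).hist
    rw [hc _ (le_max_left _ _), hr] at h1
    refine ⟨h1 σ.length ?_ σ hσ, by omega⟩
    have := le_max_right k0 (r.length + σ.length)
    omega
  · intro σ τ _ _
    exact List.prefix_append_right_inj r
  · show [false] <+: r ++ []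
    rw [List.append_nil, ← hr]; exact hR_f0 V k0
  · intro Z hZ hnI
    change ¬ Ini (r ++ []) Z at hnI
    rw [List.append_nil] at hnI
    refine ⟨k0 + 1, fun i hi => ?_⟩
    have h1 := hZ (i + 1)
    rw [mem_live, hc i (by omega), hr] at h1
    rcases h1 with h1 | ⟨p, hp, h1⟩ | ⟨β, _, h1⟩ | ⟨p, hp, h1⟩
    · exact true_last h1 (by omega)
    · refine pad_last h1 ?_
      have := (inv1 V k0).dn1 p (by simp [hp])
      omega
    · exact absurd ((h1 ▸ ini_tk Z (i + 1)).pre (List.prefix_append _ _)) hnI
    · refine pad_last h1 ?_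
      have := ((inv1 V k0).pd1 p (List.mem_of_mem_tail hp)).2
      omega
  · intro Z hZ hI
    change Ini (r ++ []) Z at hI
    rw [List.append_nil] at hI
    have hf : Ini [false] Z := hI.pre (hr ▸ hR_f0 V k0)
    have key : ∀ i, k0 ≤ i → ∃ β ∈ live (i + 1 - r.length) (sh V r), r ++ β = tk Z (i + 1) := by
      intro i hi
      have h1 := hZ (i + 1)
      rw [mem_live, hc i (by omega), hr] at h1
      rcases h1 with h1 | ⟨p, hp, h1⟩ | ⟨β, hβ, h1⟩ | ⟨p, hp, h1⟩
      · exact (true_ini h1 hf).elim
      · exfalso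
        refine held (Or.inl hp) ?_
        rw [hr]
        exact Ini.cmp ((h1 ▸ ini_tk Z (i + 1)).pre (pre_pad _ _)) hI
      · exact ⟨β, hβ, h1⟩
      · exfalso
        refine held (Or.inr hp) ?_
        rw [hr]
        exact Ini.cmp ((h1 ▸ ini_tk Z (i + 1)).pre (pre_pad _ _)) hI
    have hZ' : ∀ k, r ++ tk (fun j => Z (r.length + j)) k = tk Z (r.length + k) := by
      intro k
      apply List.ext_getElem
      · simp
      · intro i h1 h2
        rw [tk_get]
        by_cases hi : i < r.length
        · rw [List.getElem_append_left hi]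
          have : r = tk Z r.length := hI
          rw [List.getElem_of_eq this, tk_get]
        · rw [List.getElem_append_right (by omega), tk_get]
          congr 1; omega
    refine ⟨fun j => Z (r.length + j), ?_, ?_⟩
    · intro k
      obtain ⟨β, hβ, h1⟩ := key (k0 + (r.length + k)) (by omega)
      have h2 : k0 + (r.length + k) + 1 = r.length + (k0 + k + 1) := by omega
      have h3 : k0 + (r.length + k) + 1 - r.length = k0 + k + 1 := by omega
      rw [h3] at hβ
      rw [h2, ← hZ' (k0 + k + 1)] at h1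
      have h4 := List.append_cancel_left h1
      rw [h4] at hβ
      have h5 := live_take hβ (j := k) (by omega)
      rw [tk_take _ _ _ (by omega)] at h5
      exact h5
    · intro k
      show Ini (r ++ tk (fun j => Z (r.length + j)) k) Z
      rw [hZ']
      exact ini_tk _ _
  · left
    refine ⟨(stN live V k0).1.1, k0 + 1, fun j hj β hβ => ?_⟩
    have h1 := h (j + r.length - 1) (by omega)
    unfold NoS at h1
    rw [hc _ (by omega), hr] at h1
    have e : j + r.length - 1 + 1 - r.length = j := by omega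
    rw [e] at h1
    unfold fnd at h1
    rw [List.find?_eq_none] at h1
    have := h1 β hβ
    rw [hr] at this
    simpa using this

/-! the other case -/

lemma success {V : Env} {i : ℕ} (h : ¬ NoS V i) :
    ((stN live V (i + 1)).1.1 = (stN live V i).1.1 ∧
      (stN live V (i + 1)).2.2.length + 1 = (stN live V i).2.2.length) ∨
    (stN live V (i + 1)).1.1 = (stN live V i).1.1 + 1 := by
  obtain ⟨n, T, dn, a, r, pd, hst⟩ := st_cases V i
  unfold NoS at h
  rw [stN_succ]
  rw [hst] at h ⊢
  unfold nxt
  cases hf : fnd (V 0) ((n, T), dn, (a, r) :: pd)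
    (live (i + 1 - (hR ((n, T), dn, (a, r) :: pd)).length)
      (sh V (hR ((n, T), dn, (a, r) :: pd)))) with
  | none => exact absurd hf h
  | some b =>
    cases pd with
    | cons p pd' =>
      left
      rw [step_more hf]
      simp
    | nil =>
      right
      rw [step_last hf]

lemma grow1 (V : Env) (i : ℕ) : (stN live V i).1.1 ≤ (stN live V (i + 1)).1.1 ∧
    ∃ E : Tab, (stN live V (i + 1)).1.2 = (stN live V i).1.2 ++ E ∧
      ∀ p ∈ E, (stN live V i).1.1 ≤ p.1.length := by
  have hI := inv V i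
  obtain ⟨n, T, dn, a, r, pd, hst⟩ := st_cases V i
  rw [stN_succ]
  rw [hst] at hI ⊢
  unfold nxt
  cases hf : fnd (V 0) ((n, T), dn, (a, r) :: pd)
    (live (i + 1 - (hR ((n, T), dn, (a, r) :: pd)).length)
      (sh V (hR ((n, T), dn, (a, r) :: pd)))) with
  | none => rw [step_none hf]; exact ⟨le_rfl, [], by simp, by simp⟩
  | some b =>
    cases pd with
    | cons p pd' =>
      rw [step_more hf]
      exact ⟨le_rfl, [], by simp, by simp⟩
    | nil =>
      rw [step_last hf]
      refine ⟨by simp, dn ++ [(a, r ++ b)], rfl, ?_⟩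
      intro p hp
      have h1 : p.1 ∈ (dn ++ [(a, r)]).map Prod.fst := by
        simp only [List.mem_append, List.mem_singleton] at hp
        simp only [List.map_append, List.mem_append, List.mem_map, List.map_cons, List.map_nil,
          List.mem_singleton]
        rcases hp with hp | rfl
        · left; exact ⟨p, hp, rfl⟩
        · right; rfl
      have := hI.adr
      simp only at this
      rw [this] at h1
      exact (live_len h1).ge

lemma grow {V : Env} {i i' : ℕ} (hi : i ≤ i') : (stN live V i).1.1 ≤ (stN live V i').1.1 ∧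
    ∃ E : Tab, (stN live V i').1.2 = (stN live V i).1.2 ++ E ∧
      ∀ p ∈ E, (stN live V i).1.1 ≤ p.1.length := by
  induction i', hi using Nat.le_induction with
  | base => exact ⟨le_rfl, [], by simp, by simp⟩
  | succ i' hi ih =>
    obtain ⟨h1, E, h2, h3⟩ := ih
    obtain ⟨h1', E', h2', h3'⟩ := grow1 V i'
    refine ⟨h1.trans h1', E ++ E', by rw [h2', h2, List.append_assoc], ?_⟩
    intro p hp
    rw [List.mem_append] at hp
    rcases hp with hp | hp
    · exact h3 p hp
    · exact h1.trans (h3' p hp)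

lemma rounds {V : Env} (h : ∀ k0, ∃ i, k0 ≤ i ∧ ¬ NoS V i) (n : ℕ) :
    ∃ i, n ≤ (stN live V i).1.1 := by
  classical
  have key : ∀ l i, (stN live V i).2.2.length ≤ l →
      ∃ i', (stN live V i').1.1 = (stN live V i).1.1 + 1 := by
    intro l
    induction l with
    | zero =>
      intro i hl
      have hne := (inv1 V i).ne
      exact absurd (List.length_eq_zero_iff.1 (Nat.le_zero.1 hl)) hne
    | succ l ih =>
      intro i hl
      have hex : ∃ i1, i ≤ i1 ∧ ¬ NoS V i1 := h i
      obtain ⟨h1, h2⟩ := Nat.find_spec hex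
      set i1 := Nat.find hex
      have hc : stN live V i1 = stN live V i := by
        refine stN_const' (fun j hj1 hj2 => ?_) h1
        have := Nat.find_min hex hj2
        simp only [not_and, not_not] at this
        exact this hj1
      rcases success h2 with ⟨h3, h4⟩ | h3
      · obtain ⟨i', hi'⟩ := ih (i1 + 1) (by rw [hc] at h4; omega)
        exact ⟨i', by rw [hi', h3, hc]⟩
      · exact ⟨i1 + 1, by rw [h3, hc]⟩
  induction n with
  | zero => exact ⟨0, Nat.zero_le _⟩
  | succ n ih =>
    obtain ⟨i, hi⟩ := ih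
    obtain ⟨i', hi'⟩ := key _ i le_rfl
    exact ⟨i', by omega⟩

lemma level_i {V : Env} (h : ∀ k0, ∃ i, k0 ≤ i ∧ ¬ NoS V i) : ∃ M V', LevelC V M V' := by
  classical
  choose idx hidx using rounds h
  let Ti : Str → Str := fun σ => lk (stN live V (idx (σ.length + 1))).1.2 σ
  have hTi : ∀ i (σ : Str), σ.length < (stN live V i).1.1 → lk (stN live V i).1.2 σ = Ti σ := by
    intro i σ hσ
    show _ = lk (stN live V (idx (σ.length + 1))).1.2 σ
    have h2 := hidx (σ.length + 1)
    have aux : ∀ i i', i ≤ i' → σ.length < (stN live V i).1.1 →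
        lk (stN live V i').1.2 σ = lk (stN live V i).1.2 σ := by
      intro i i' hii hs
      obtain ⟨_, E, hE, hE2⟩ := grow (V := V) hii
      rw [hE]
      refine lk_append' _ _ _ ?_
      intro hc
      obtain ⟨p, hp, rfl⟩ := List.mem_map.1 hc
      have := hE2 p hp
      omega
    rcases le_total i (idx (σ.length + 1)) with h1 | h1
    · exact (aux _ _ h1 hσ).symm
    · exact aux _ _ h1 (by omega)
  let V' : Env := fun e σ n => V (e + 1) (Ti σ) n
  have hlv : ∀ i m, m ≤ (stN live V i).1.1 → live m (cm V (stN live V i).1.2) = live m V' := by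
    intro i m hm
    refine live_congr m _ _ (fun e σ n hσ => ?_)
    show V (e + 1) (lk (stN live V i).1.2 σ) n = V (e + 1) (Ti σ) n
    rw [hTi i σ (by omega)]
  have htab : ∀ m, ∀ γ ∈ live m V', Ti γ ∈ live (Ti γ).length V ∧ V 0 (Ti γ) m = true ∧
      m + 1 ≤ (Ti γ).length ∧ [false] <+: Ti γ := by
    intro m γ hγ
    have h1 := hidx (m + 1)
    have h2 := (inv V (idx (m + 1))).tab m (by omega) γ (by rw [hlv _ _ (by omega)]; exact hγ)
    rw [hTi _ γ (by rw [live_len hγ]; omega)] at h2
    exact h2
  have htinc : ∀ m, ∀ γ ∈ live m V', ∀ γ' ∈ live m V', Cmp (Ti γ) (Ti γ') → γ = γ' := by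
    intro m γ hγ γ' hγ' hc
    have h1 := hidx (m + 1)
    have h2 := (inv V (idx (m + 1))).tinc m (by omega) γ (by rw [hlv _ _ (by omega)]; exact hγ)
      γ' (by rw [hlv _ _ (by omega)]; exact hγ')
    rw [hTi _ γ (by rw [live_len hγ]; omega), hTi _ γ' (by rw [live_len hγ']; omega)] at h2
    exact h2 hc
  have htst : ∀ m, ∀ α ∈ live (m + 1) V', Ti α.dropLast <+: Ti α ∧
      (Ti α.dropLast).length + 1 ≤ (Ti α).length := by
    intro m α hα
    have h1 := hidx (m + 2)
    obtain ⟨kk, hkk⟩ := (inv V (idx (m + 2))).tst m (by omega)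
    have h2 := hkk α (by rw [hlv _ _ (by omega)]; exact hα)
    rw [hTi _ α (by rw [live_len hα]; omega), hTi _ α.dropLast (by
      rw [List.length_dropLast, live_len hα]; omega)] at h2
    refine ⟨(pre_pad _ _).trans ((List.prefix_append _ _).trans h2.2), ?_⟩
    have := h2.2.length_le
    have h3 := (pre_pad kk (Ti α.dropLast)).length_le
    simp only [List.length_append, List.length_singleton] at this
    omega
  have hmono : ∀ d m, ∀ α ∈ live (m + d) V', Ti (α.take m) <+: Ti α ∧
      (Ti (α.take m)).length + d ≤ (Ti α).length := by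
    intro d
    induction d with
    | zero =>
      intro m α hα
      rw [List.take_of_length_le (by rw [live_len hα]; omega)]
      exact ⟨List.prefix_rfl, le_rfl⟩
    | succ d ih =>
      intro m α hα
      have h1 := htst (m + d) α hα
      have h2 : α.dropLast ∈ live (m + d) V' := by
        have := live_take hα (j := m + d) (by omega)
        rw [List.dropLast_eq_take, live_len hα]
        exact this
      have h3 := ih m α.dropLast h2
      have h4 : α.dropLast.take m = α.take m := by
        rw [List.dropLast_eq_take, List.take_take, live_len hα, min_eq_left (by omega)]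
      rw [h4] at h3
      exact ⟨h3.1.trans h1.1, by omega⟩
  have hemb : ∀ σ τ, σ ∈ live σ.length V' → τ ∈ live τ.length V' →
      (Ti σ <+: Ti τ ↔ σ <+: τ) := by
    intro σ τ hσ hτ
    constructor
    · intro hp
      rcases le_total σ.length τ.length with hl | hl
      · have h1 := live_take hτ hl
        have h2 : Ti (τ.take σ.length) <+: Ti τ := by
          obtain ⟨d, hd⟩ := Nat.exists_eq_add_of_le hl
          exact (hmono d σ.length τ (hd ▸ hτ)).1
        have h3 := htinc _ σ hσ _ h1 (cmp_of_pre hp h2)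
        rw [h3]
        exact List.take_prefix _ _
      · have h1 := live_take hσ hl
        obtain ⟨d, hd⟩ := Nat.exists_eq_add_of_le hl
        have h2 := hmono d τ.length σ (hd ▸ hσ)
        have h3 := htinc _ _ h1 τ hτ (cmp_of_pre (h2.1.trans hp) List.prefix_rfl)
        rw [h3] at h2
        have h4 := hp.length_le
        have h5 : d = 0 := by omega
        subst h5
        rw [← h3, List.take_of_length_le (by omega)]
    · intro hp
      rw [List.prefix_iff_eq_take] at hp
      have hl : σ.length ≤ τ.length := by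
        have := congrArg List.length hp
        simp only [List.length_take] at this
        omega
      obtain ⟨d, hd⟩ := Nat.exists_eq_add_of_le hl
      have := (hmono d σ.length τ (hd ▸ hτ)).1
      rw [← hp] at this
      exact this
  have hout : ∀ m i, m + 1 ≤ (stN live V i).1.1 → ∀ τ ∈ live (i + 1) V,
      τ = true :: List.replicate i false ∨ ∃ γ ∈ live m V', Ti γ <+: τ := by
    intro m i hm τ hτ
    by_cases h0 : τ = true :: List.replicate i false
    · left; exact h0
    · right
      have hp : ∃ p ∈ (stN live V i).2.1 ++ (stN live V i).2.2, p.2 <+: τ := by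
        rw [mem_live] at hτ
        rcases hτ with h1 | ⟨p, hp, h1⟩ | ⟨β, hβ, h1⟩ | ⟨p, hp, h1⟩
        · exact absurd h1 h0
        · exact ⟨p, by simp [hp], h1 ▸ pre_pad _ _⟩
        · obtain ⟨n, T, dn, a, r, pd, hst⟩ := st_cases V i
          refine ⟨(a, r), by rw [hst]; simp, ?_⟩
          rw [hst] at h1
          exact h1 ▸ List.prefix_append _ _
        · refine ⟨p, ?_, h1 ▸ pre_pad _ _⟩
          have := List.mem_of_mem_tail hp
          simp [this]
      obtain ⟨p, hp, hpτ⟩ := hp
      obtain ⟨m', hm'⟩ : ∃ m', (stN live V i).1.1 = m' + 1 := ⟨(stN live V i).1.1 - 1, by omega⟩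
      have hI := inv V i
      obtain ⟨kk, hkk⟩ := hI.stt m' hm'
      have h1 := hkk p hp
      have h2 : p.1 ∈ live (m' + 1) V' := by
        rw [← hlv i (m' + 1) (by omega), ← hm', ← hI.adr]
        exact List.mem_map_of_mem hp
      have h3 : p.1.dropLast ∈ live m' V' := by
        have := live_take h2 (j := m') (by omega)
        rw [List.dropLast_eq_take, live_len h2]
        exact this
      rw [hTi i _ (by rw [live_len h3]; omega)] at h1
      refine ⟨p.1.dropLast.take m, live_take h3 (by omega), ?_⟩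
      obtain ⟨d, hd⟩ : ∃ d, m' = m + d := ⟨m' - m, by omega⟩
      refine ((hmono d m _ (hd ▸ h3)).1).trans ?_
      exact (pre_pad _ _).trans ((List.prefix_append _ _).trans (h1.2.trans hpτ))
  have hnil : ([] : Str) ∈ live 0 V' := by rw [live_zero]; simp
  have hrd : ∀ i, idx 1 ≤ i → 1 ≤ (stN live V i).1.1 := fun i hi =>
    (hidx 1).trans (grow (V := V) hi).1
  refine ⟨Ti, V', fun e σ n => rfl, ?_, hemb, (htab 0 [] hnil).2.2.2, ?_, ?_, ?_⟩
  · intro σ hσ
    have := htab _ σ hσ
    exact ⟨this.1, this.2.2.1⟩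
  · intro Z hZ hn
    refine ⟨idx 1 + 1, fun i hi => ?_⟩
    rcases hout 0 i (hrd i (by omega)) _ (hZ (i + 1)) with h1 | ⟨γ, hγ, h1⟩
    · exact true_last h1 (by omega)
    · exfalso
      apply hn
      have : γ = [] := List.length_eq_zero_iff.1 (live_len hγ)
      subst this
      exact (ini_tk Z (i + 1)).pre h1
  · intro Z hZ hI0
    have hf : Ini [false] Z := hI0.pre (htab 0 [] hnil).2.2.2
    have hex : ∀ m, ∃ γ ∈ live m V', Ini (Ti γ) Z := by
      intro m
      rcases hout m (idx (m + 1)) (hidx (m + 1)) _ (hZ _) with h1 | ⟨γ, hγ, h1⟩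
      · exact (true_ini h1 hf).elim
      · exact ⟨γ, hγ, (ini_tk Z _).pre h1⟩
    choose γ hγ1 hγ2 using hex
    have hpre : ∀ m m', m ≤ m' → γ m <+: γ m' := by
      intro m m' hm
      have h1 := (hγ2 m).cmp (hγ2 m')
      have e1 := live_len (hγ1 m)
      have e2 := live_len (hγ1 m')
      rcases h1 with h1 | h1
      · exact (hemb _ _ (by rw [e1]; exact hγ1 m) (by rw [e2]; exact hγ1 m')).1 h1
      · have h2 := (hemb _ _ (by rw [e2]; exact hγ1 m') (by rw [e1]; exact hγ1 m)).1 h1
        have := h2.eq_of_length (by have := h2.length_le; omega)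
        rw [this]
    let Z' : ℕ → Bool := fun j => (γ (j + 1)).getD j false
    have htk : ∀ m, tk Z' m = γ m := by
      intro m
      apply List.ext_getElem
      · rw [tk_length, live_len (hγ1 m)]
      · intro i h1 h2
        rw [tk_get]
        show (γ (i + 1)).getD i false = _
        rw [tk_length] at h1
        have e1 := live_len (hγ1 (i + 1))
        rw [List.getD_eq_getElem _ _ (by omega)]
        exact List.IsPrefix.getElem (hpre (i + 1) m (by omega)) _
    exact ⟨Z', fun k => by rw [htk]; exact hγ1 k, fun k => by rw [htk]; exact hγ2 k⟩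
  · right
    intro n β hβ
    exact (htab n β hβ).2.1

theorem level (V : Env) : ∃ M V', LevelC V M V' := by
  by_cases h : ∃ k0, ∀ i, k0 ≤ i → NoS V i
  · obtain ⟨k0, h⟩ := h
    exact ⟨_, _, level_f h⟩
  · push Not at h
    exact level_i h

end Pool.Agent.NH86.NCR
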