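import Pool.Agent.NH86.NCR.Cls
import Pool.Agent.Helper743.Lim

set_option autoImplicit false

/-! The constructed path is not computable in the halting problem. -/

namespace Pool.Agent.NH86.NCR

open Encodable Nat.Partrec Pool.Agent.Helper446 Pool.Agent.Helper446.RE

@[fun_prop] theorem ctoNat {α : Type*} [Primcodable α] {f : α → Bool}
    (hf : Computable f) : Computable (fun x => (f x).toNat) := by
  refine (Computable.cond hf (Computable.const 1) (Computable.const 0)).of_eq fun x => ?_
  cases f x <;> rfl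

lemma getD_take {σ : Str} {m j : ℕ} (h : m < j) : (σ.take j).getD m false = σ.getD m false := by
  rw [List.getD_eq_getElem?_getD, List.getD_eq_getElem?_getD, List.getElem?_take_of_lt h]

lemma tk_getD {Z : ℕ → Bool} {m k : ℕ} (h : m < k) : (tk Z k).getD m false = Z m := by
  rw [List.getD_eq_getElem _ _ (by simpa using h), tk_get]

theorem Cls.not_limit {L : ℕ → List Str} {X : ℕ → Bool} (h : Cls L X) :
    ¬ Pool.Agent.Helper743.LimC (fun n => (X n).toNat) := by
  rintro ⟨g, hg, hlim⟩
  have hg' : Computable (fun x : ℕ × ℕ => g x.1 x.2) := hg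
  apply h.not_computable
  -- the property used
  let R : ℕ → ℕ → Str → Prop := fun n s σ => n ≤ s ∧
    ∀ m < n + 1, g m s = (σ.getD m false).toNat
  have hRre : REPred (fun x : (ℕ × ℕ) × Str => R x.1.1 x.1.2 x.2) := by
    refine RE.and (le (by fun_prop) (by fun_prop)) ?_
    refine all_lt (p := fun (x : (ℕ × ℕ) × Str) m => g m x.1.2 = (x.2.getD m false).toNat) ?_
      (by fun_prop)
    refine eq ?_ ?_
    · exact hg'.comp (f := fun x : ℕ × ℕ => g x.1 x.2)
        (g := fun x : ((ℕ × ℕ) × Str) × ℕ => (x.2, x.1.1.2)) (by fun_prop)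
    · simp only [List.getD_eq_getElem?_getD]
      fun_prop
  have hW : REPred (fun x : Str × ℕ => x.2 + 1 ≤ x.1.length ∧ ∃ s, R x.2 s x.1) := by
    refine RE.and (le (by fun_prop) (by fun_prop)) ?_
    refine exN (p := fun (x : Str × ℕ) s => R x.2 s x.1) ?_
    exact RE.comp hRre (f := fun x : (Str × ℕ) × ℕ => ((x.1.2, x.2), x.1.1)) (by fun_prop)
  obtain ⟨m0, h0 | h0⟩ := h.alt (fun σ n => n + 1 ≤ σ.length ∧ ∃ s, R n s σ) hW
  · exfalso
    obtain ⟨n, hn⟩ := h0 X h.mem rfl
    choose s0 hs0 using hlim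
    apply hn (n + 1)
    refine ⟨by simp, max n ((Finset.range (n + 1)).sup s0), le_max_left _ _, ?_⟩
    intro m hm
    rw [tk_getD hm]
    refine hs0 m _ ?_
    have := Finset.le_sup (f := s0) (Finset.mem_range.2 hm)
    have := le_max_right n ((Finset.range (n + 1)).sup s0)
    omega
  · -- the computable bound
    have hR : ∀ n s (σ τ : Str) , n + 1 ≤ σ.length → σ = τ.take σ.length → R n s σ → R n s τ := by
      intro n s σ τ h1 h2 h3
      refine ⟨h3.1, fun m hm => ?_⟩
      rw [h3.2 m hm, h2, getD_take (by omega)]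
    let P : ℕ → ℕ → Prop := fun n k => n + 1 ≤ k ∧ ∀ τ ∈ L k,
      τ.take (tk X m0).length ≠ (tk X m0).take τ.length ∨ ∃ s, s < k + 1 ∧ R n s τ
    have hex : ∀ n, ∃ k, P n k := by
      intro n
      obtain ⟨k, hk⟩ : ∃ k, ∀ τ ∈ L k, cnd (tk X m0) τ →
          (n + 1 ≤ k ∧ n + 1 ≤ τ.length ∧ ∃ s, s < k + 1 ∧ R n s τ) := by
        refine h.compact (m0 := m0)
          (Q := fun k τ => n + 1 ≤ k ∧ n + 1 ≤ τ.length ∧ ∃ s, s < k + 1 ∧ R n s τ) ?_ ?_
        · rintro j k τ hjk ⟨h1, h2, s, h3, h4⟩
          rw [List.length_take] at h2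
          refine ⟨by omega, by omega, s, by omega, ?_⟩
          refine hR n s (τ.take j) τ (by rw [List.length_take]; omega) ?_ h4
          rw [List.length_take]
          rcases le_total j τ.length with h5 | h5
          · rw [min_eq_left h5]
          · rw [min_eq_right h5, List.take_of_length_le h5, List.take_of_length_le le_rfl]
        · intro Z hZ hZX
          obtain ⟨i, h1, s, h2⟩ := h0 Z hZ hZX n
          rw [tk_length] at h1
          refine ⟨max i s, by omega, by rw [tk_length]; omega, s, by omega, ?_⟩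
          refine hR n s (tk Z i) _ (by rw [tk_length]; omega) ?_ h2
          rw [tk_length, tk_take _ _ _ (le_max_left _ _)]
      have hτ : cnd (tk X m0) (tk X k) := by
        unfold cnd
        rw [tk_length, tk_length]
        rcases le_total m0 k with h1 | h1
        · rw [tk_take _ _ _ h1, List.take_of_length_le (by simpa using h1)]
        · rw [tk_take _ _ _ h1, List.take_of_length_le (by simpa using h1)]
      refine ⟨k, (hk _ (h.mem k) hτ).1, fun τ hτ => ?_⟩
      by_cases hc : cnd (tk X m0) τ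
      · right; exact (hk τ hτ hc).2.2
      · left; exact hc
    have hP : REPred (fun x : ℕ × ℕ => P x.1 x.2) := by
      refine RE.and (le (by fun_prop) (by fun_prop)) ?_
      refine all_mem (p := fun (x : ℕ × ℕ) τ => τ.take (tk X m0).length ≠ (tk X m0).take τ.length ∨
        ∃ s, s < x.2 + 1 ∧ R x.1 s τ) ?_ (h.comp.comp Computable.snd)
      refine RE.or (ne (by fun_prop) (by fun_prop)) ?_
      refine exN (p := fun (x : (ℕ × ℕ) × Str) s => s < x.1.2 + 1 ∧ R x.1.1 s x.2) ?_
      refine RE.and (lt (by fun_prop) (by fun_prop)) ?_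
      exact RE.comp hRre (f := fun x : ((ℕ × ℕ) × Str) × ℕ => ((x.1.1.1, x.2), x.1.2))
        (by fun_prop)
    refine computable_of_graph ?_
    have hgr : REPred (fun x : ℕ × Bool => ∃ n k, (x.1 ≤ n ∧ P n k) ∧
        ∀ s < k + 1, s < n ∨ g x.1 s = x.2.toNat) := by
      refine exN (p := fun (x : ℕ × Bool) n => ∃ k, (x.1 ≤ n ∧ P n k) ∧
        ∀ s < k + 1, s < n ∨ g x.1 s = x.2.toNat) ?_
      refine exN (p := fun (x : (ℕ × Bool) × ℕ) k => (x.1.1 ≤ x.2 ∧ P x.2 k) ∧
        ∀ s < k + 1, s < x.2 ∨ g x.1.1 s = x.1.2.toNat) ?_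
      refine RE.and (RE.and (le (by fun_prop) (by fun_prop)) ?_) ?_
      · exact RE.comp hP (f := fun x : ((ℕ × Bool) × ℕ) × ℕ => (x.1.2, x.2)) (by fun_prop)
      · refine all_lt (p := fun (x : ((ℕ × Bool) × ℕ) × ℕ) s =>
          s < x.1.2 ∨ g x.1.1.1 s = x.1.1.2.toNat) ?_ (by fun_prop)
        refine RE.or (lt (by fun_prop) (by fun_prop)) (eq ?_ (by fun_prop))
        exact hg'.comp (f := fun x : ℕ × ℕ => g x.1 x.2)
          (g := fun x : (((ℕ × Bool) × ℕ) × ℕ) × ℕ => (x.1.1.1.1, x.2)) (by fun_prop)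
    refine hgr.of_eq ?_
    rintro ⟨x, b⟩
    constructor
    · rintro ⟨n, k, ⟨h1, h2⟩, h3⟩
      simp only at h1 h3 ⊢
      rcases h2.2 _ (h.mem k) with h4 | ⟨s, h4, h5⟩
      · exfalso
        apply h4
        rw [tk_length, tk_length]
        rcases le_total m0 k with h1 | h1
        · rw [tk_take _ _ _ h1, List.take_of_length_le (by simpa using h1)]
        · rw [tk_take _ _ _ h1, List.take_of_length_le (by simpa using h1)]
      · have h6 := h5.2 x (by omega)
        rw [tk_getD (by have := h2.1; omega)] at h6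
        rcases h3 s h4 with h7 | h7
        · have := h5.1; omega
        · rw [h6] at h7
          show X x = b
          cases hx : X x <;> cases b <;> rw [hx] at h7 <;> first | rfl | exact absurd h7 (by decide)
    · intro hxb
      simp only at hxb
      obtain ⟨s0, hs0⟩ := hlim x
      obtain ⟨k, hk⟩ := hex (max x s0)
      refine ⟨max x s0, k, ⟨le_max_left _ _, hk⟩, fun s _ => ?_⟩
      by_cases hs : s < max x s0
      · left; exact hs
      · right
        simp only
        rw [hs0 s (by omega), ← hxb]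

end Pool.Agent.NH86.NCR
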