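import Pool.Agent.NH86.NCR.Red
import Pool.Agent.Helper446.Oracle

set_option autoImplicit false

/-! Members of countable effectively closed classes are not random for continuous measures. -/

namespace Pool.Agent.NH86.NCR

open Encodable Nat.Partrec Pool.Agent.Helper446 Pool.Agent.Helper446.RE
open Pool.Agent.Helper446.Oracle Pool.Agent.Helper446.Defs MeasureTheory Filter

/-- the characteristic function of a real, as an oracle -/
def orc (R : ℕ → Bool) : ℕ →. ℕ := fun n => Part.some (R n).toNat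

lemma orc_chi (R : ℕ → Bool) : orc R = Defs.chi {n | R n = true} := by
  funext n
  unfold orc Defs.chi chiN
  cases h : R n <;> simp [h]

/-- cylinders -/
def cyl (σ : Str) : Set (ℕ → Bool) := {Z | tk Z σ.length = σ}

lemma mem_cyl_tk (Z : ℕ → Bool) (n : ℕ) : Z ∈ cyl (tk Z n) := by
  unfold cyl; simp

lemma cyl_meas (σ : Str) : MeasurableSet (cyl σ) := by
  have h : cyl σ = ⋂ i : Fin σ.length, (fun Z : ℕ → Bool => Z i) ⁻¹' {σ[i]} := by
    ext Z
    simp only [cyl, Set.mem_ofPred_eq, Set.mem_iInter, Set.mem_preimage, Set.mem_singleton_iff]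
    constructor
    · intro h i
      have h1 : (tk Z σ.length)[(i : ℕ)]'(by simp) = σ[i] := by
        have := List.getElem_of_eq h (i := (i : ℕ)) (by simp)
        exact this
      rw [tk_get] at h1
      exact h1
    · intro h
      apply List.ext_getElem
      · simp
      · intro i h1 h2
        rw [tk_get]
        exact h ⟨i, h2⟩
  rw [h]
  exact MeasurableSet.iInter (fun i => measurable_pi_apply _ (measurableSet_singleton _))

/-- sets c.e. in `A` are domains of functions partial recursive in `A` -/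
theorem rein_dom {A : Set ℕ} {S : ℕ → Prop} (h : REIn A S) :
    ∃ φ : ℕ →. ℕ, Nat.RecursiveIn {Defs.chi A} φ ∧ ∀ n, (φ n).Dom ↔ S n := by
  obtain ⟨R, hR, hS⟩ := h
  obtain ⟨q, hq, hRq⟩ := RE.re_iff.1 hR
  let cc : ℕ → List ℕ × List ℕ := fun k =>
    (decode (α := List ℕ × List ℕ) k.unpair.1).getD ([], [])
  have hcc : Computable cc :=
    Primrec.option_getD.to_comp.comp (by fun_prop) (by fun_prop)
  let Φ : ℕ → ℕ := fun m =>
    (if q (m.unpair.1, cc m.unpair.2) m.unpair.2.unpair.2 = true then 0 else 1) +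
    viol A (cc m.unpair.2) ((cc m.unpair.2).1.length + (cc m.unpair.2).2.length)
  have hq' : Computable fun m : ℕ => q (m.unpair.1, cc m.unpair.2) m.unpair.2.unpair.2 :=
    hq.comp (g := fun m : ℕ => (m.unpair.1, cc m.unpair.2))
      (h := fun m : ℕ => m.unpair.2.unpair.2) (by fun_prop) (by fun_prop)
  have hΦ1 : TotIn A fun m : ℕ =>
      (if q (m.unpair.1, cc m.unpair.2) m.unpair.2.unpair.2 = true then 0 else 1) :=
    TotIn.of_comp (RE.cite (RE.cp_eq hq' (by fun_prop)) (by fun_prop) (by fun_prop))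
  have hΦ2 : TotIn A fun m : ℕ => viol A (cc m.unpair.2)
      ((cc m.unpair.2).1.length + (cc m.unpair.2).2.length) := by
    have h1 : Computable fun m : ℕ => Nat.pair m.unpair.2.unpair.1
        ((cc m.unpair.2).1.length + (cc m.unpair.2).2.length) := by fun_prop
    refine Nat.RecursiveIn.of_eq (TotIn.viol.comp (TotIn.of_comp h1)) fun m => ?_
    simp only [Nat.unpair_pair]
    rfl
  have hΦ : TotIn A Φ := by
    have h1 : Computable fun m : ℕ => m.unpair.1 + m.unpair.2 := by fun_prop
    refine Nat.RecursiveIn.of_eq ((TotIn.of_comp h1).comp (hΦ1.pair hΦ2)) fun m => ?_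
    simp only [Nat.unpair_pair]
    rfl
  have hkey : ∀ n k, Φ (Nat.pair n k) = 0 → S n := by
    intro n k h0
    simp only [Φ, Nat.unpair_pair] at h0
    have h1 : q (n, cc k) k.unpair.2 = true := by
      by_contra hcon
      rw [if_neg hcon] at h0
      omega
    have h2 : viol A (cc k) ((cc k).1.length + (cc k).2.length) = 0 := by omega
    exact (hS n).2 ⟨cc k, (hRq _).2 ⟨_, h1⟩, (viol_eq_zero _).1 h2⟩
  have hex : ∀ n, S n → ∃ k, Φ (Nat.pair n k) = 0 := by
    intro n hn
    obtain ⟨c, hc, hok⟩ := (hS n).1 hn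
    obtain ⟨t, ht⟩ := (hRq (n, c)).1 hc
    refine ⟨Nat.pair (encode c) t, ?_⟩
    have hck : cc (Nat.pair (encode c) t) = c := by
      simp only [cc, Nat.unpair_pair]
      rw [encodek, Option.getD_some]
    simp only [Φ, Nat.unpair_pair, hck]
    rw [if_pos ht, (viol_eq_zero c).2 hok]
  refine ⟨_, Nat.RecursiveIn.rfind hΦ, fun n => ?_⟩
  refine Iff.trans (Nat.rfind_dom (p := fun k => ((fun m => decide (m = 0)) <$>
    Part.some (Φ (Nat.pair n k)) : Part Bool))) ?_
  constructor
  · rintro ⟨k, hk, _⟩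
    refine hkey n k ?_
    simpa using hk
  · intro hn
    obtain ⟨k, hk⟩ := hex n hn
    exact ⟨k, by simp [hk], fun {m} _ => trivial⟩

theorem pow2_comp : Computable (fun n : ℕ => 2 ^ n) := by
  have h := Computable.nat_rec (f := fun n : ℕ => n) (g := fun _ : ℕ => 1)
    (h := fun (_ : ℕ) (y : ℕ × ℕ) => 2 * y.2) Computable.id (Computable.const 1) (by
      unfold Computable₂; fun_prop)
  refine h.of_eq fun n => ?_
  induction n with
  | zero => rfl
  | succ n ih =>
    rw [pow_succ, ← ih]
    show 2 * _ = _ * 2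
    rw [mul_comm]

/-- the sum of the values, plus one each -/
def sm (l : List (Str × ℕ)) : ℕ := l.foldl (fun s b => s + (b.2 + 1)) 0

lemma sm_eq (l : List (Str × ℕ)) : sm l = (l.map (fun b => b.2 + 1)).sum := by
  have : ∀ (l : List (Str × ℕ)) s, l.foldl (fun s b => s + (b.2 + 1)) s =
      s + (l.map (fun b => b.2 + 1)).sum := by
    intro l
    induction l with
    | nil => intro s; simp
    | cons b l ih => intro s; rw [List.foldl_cons, ih, List.map_cons, List.sum_cons]; omega
  unfold sm
  rw [this]; simp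

theorem sm_comp {α : Type*} [Primcodable α] {f : α → List (Str × ℕ)} (hf : Computable f) :
    Computable (fun x => sm (f x)) := by
  unfold sm
  refine list_foldl (h := fun _ x => x.1 + (x.2.2 + 1)) hf (Computable.const 0) ?_
  unfold Computable₂
  fun_prop

/-- members of the `n`-th finite set all of whose prefixes are in the previous ones -/
def EE (C : ℕ → List Str) (n : ℕ) (γ : Str) : Prop := γ ∈ C n ∧ ∀ m < n + 1, γ.take m ∈ C m

def KK (C : ℕ → List Str) (n : ℕ) : Set (ℕ → Bool) := {Z | ∀ m < n + 1, tk Z m ∈ C m}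

lemma KK_anti (C : ℕ → List Str) : Antitone (KK C) := by
  intro a b hab Z hZ m hm
  exact hZ m (by omega)

lemma KK_inter (C : ℕ → List Str) : ⋂ n, KK C n = Pt C := by
  ext Z
  simp only [Set.mem_iInter, KK, Pt, Set.mem_ofPred_eq]
  constructor
  · intro h k; exact h k k (by omega)
  · intro h n m _; exact h m

lemma EE_tk {C : ℕ → List Str} {n : ℕ} {Z : ℕ → Bool} (h : Z ∈ KK C n) : EE C n (tk Z n) := by
  refine ⟨h n (by omega), fun m hm => ?_⟩
  rw [tk_take _ _ _ (by omega)]
  exact h m hm

lemma KK_of_EE {C : ℕ → List Str} {n : ℕ} {γ : Str} (hγ : γ.length = n) (h : EE C n γ) :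
    cyl γ ⊆ KK C n := by
  intro Z hZ m hm
  have hZ : tk Z γ.length = γ := hZ
  rw [hγ] at hZ
  have h1 := h.2 m hm
  rw [← hZ, tk_take _ _ _ (by omega)] at h1
  exact h1

lemma KK_meas {C : ℕ → List Str} (hlen : ∀ n, ∀ γ ∈ C n, γ.length = n) (n : ℕ) :
    MeasurableSet (KK C n) := by
  have h : KK C n = ⋂ m : Fin (n + 1), ⋃ γ ∈ {γ | γ ∈ C m}, cyl γ := by
    ext Z
    simp only [KK, Set.mem_ofPred_eq, Set.mem_iInter, Set.mem_iUnion, exists_prop]
    constructor
    · intro h m
      exact ⟨_, h m m.2, mem_cyl_tk Z m⟩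
    · intro h m hm
      obtain ⟨γ, hγ, hZ⟩ := h ⟨m, hm⟩
      have hZ : tk Z γ.length = γ := hZ
      rw [hlen _ _ hγ] at hZ
      simp only at hZ
      rw [hZ]; exact hγ
  rw [h]
  refine MeasurableSet.iInter (fun m => ?_)
  exact MeasurableSet.biUnion (Set.to_countable _) (fun γ _ => cyl_meas γ)

end Pool.Agent.NH86.NCR
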