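import Pool.Agent.NH86.NCR.Meas

set_option autoImplicit false

/-! Members of countable effectively closed classes are not random for continuous measures. -/

namespace Pool.Agent.NH86.NCR

open Encodable Nat.Partrec Pool.Agent.Helper446 Pool.Agent.Helper446.RE
open Pool.Agent.Helper446.Oracle Pool.Agent.Helper446.Defs MeasureTheory Filter

/-- the condition used in the test -/
def Cnd (C : ℕ → List Str) (q : ℕ → ℕ) (j n p : ℕ) (l : List (Str × ℕ)) : Prop :=
  ((∀ γ ∈ C n, (∃ m, m < n + 1 ∧ γ.take m ∉ C m) ∨ γ ∈ l.map Prod.fst) ∧ sm l * 2 ^ j ≤ 2 ^ p) ∧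
    ∀ b ∈ l, q (Nat.pair (encode b.1) p) = b.2

def UU (C : ℕ → List Str) (q : ℕ → ℕ) (j : ℕ) : Set Str :=
  {σ | ∃ n p l, EE C n σ ∧ Cnd C q j n p l}

theorem UU_rein {C : ℕ → List Str} (hC : Computable C) {q : ℕ → ℕ} {A : Set ℕ}
    (hq : REIn A fun p : ℕ × ℕ => q p.1 = p.2) :
    REIn A fun x : ℕ × Str => x.2 ∈ UU C q x.1 := by
  have hEE : REPred (fun x : ℕ × Str => EE C x.1 x.2) := by
    unfold EE
    refine RE.and (mem_list (by fun_prop) (hC.comp Computable.fst)) ?_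
    refine all_lt (p := fun (x : ℕ × Str) m => x.2.take m ∈ C m) ?_ (by fun_prop)
    exact mem_list (by fun_prop) (hC.comp Computable.snd)
  refine REIn.ex (S := fun (x : ℕ × Str) n => ∃ p l, EE C n x.2 ∧ Cnd C q x.1 n p l) ?_
  refine REIn.ex (S := fun (x : (ℕ × Str) × ℕ) p => ∃ l, EE C x.2 x.1.2 ∧
    Cnd C q x.1.1 x.2 p l) ?_
  refine REIn.ex (S := fun (x : ((ℕ × Str) × ℕ) × ℕ) (l : List (Str × ℕ)) => EE C x.1.2 x.1.1.2 ∧
    Cnd C q x.1.1.1 x.1.2 x.2 l) ?_
  refine REIn.and (REIn.of_re ?_) (REIn.and (REIn.of_re (RE.and ?_ ?_)) ?_)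
  · exact RE.comp hEE (f := fun x : (((ℕ × Str) × ℕ) × ℕ) × List (Str × ℕ) =>
      (x.1.1.2, x.1.1.1.2)) (by fun_prop)
  · refine all_mem (p := fun (x : (((ℕ × Str) × ℕ) × ℕ) × List (Str × ℕ)) (γ : Str) =>
      (∃ m, m < x.1.1.2 + 1 ∧ γ.take m ∉ C m) ∨ γ ∈ x.2.map Prod.fst) ?_
      (hC.comp (g := fun x : (((ℕ × Str) × ℕ) × ℕ) × List (Str × ℕ) => x.1.1.2) (by fun_prop))
    refine RE.or ?_ (mem_list (by fun_prop) (by fun_prop))
    refine exN (p := fun (x : ((((ℕ × Str) × ℕ) × ℕ) × List (Str × ℕ)) × Str) m =>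
      m < x.1.1.1.2 + 1 ∧ x.2.take m ∉ C m) ?_
    refine RE.and (lt (by fun_prop) (by fun_prop)) ?_
    exact not_mem_list (by fun_prop) (hC.comp Computable.snd)
  · refine le ?_ ?_
    · refine cmul (sm_comp (by fun_prop)) ?_
      exact pow2_comp.comp (g := fun x : (((ℕ × Str) × ℕ) × ℕ) × List (Str × ℕ) => x.1.1.1.1)
        (by fun_prop)
    · exact pow2_comp.comp (g := fun x : (((ℕ × Str) × ℕ) × ℕ) × List (Str × ℕ) => x.1.2)
        (by fun_prop)
  · refine REIn.all_mem (S := fun (x : (((ℕ × Str) × ℕ) × ℕ) × List (Str × ℕ)) (b : Str × ℕ) =>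
      q (Nat.pair (encode b.1) x.1.2) = b.2) ?_ (by fun_prop)
    exact hq.comp (f := fun x : ((((ℕ × Str) × ℕ) × ℕ) × List (Str × ℕ)) × (Str × ℕ) =>
      (Nat.pair (encode x.2.1) x.1.1.2, x.2.2)) (by fun_prop)

section measure

variable {C : ℕ → List Str} (hlen : ∀ n, ∀ γ ∈ C n, γ.length = n)
  {μ : Measure (ℕ → Bool)} [IsProbabilityMeasure μ] {q : ℕ → ℕ}
  (happ : ∀ (σ : Str) (p : ℕ),
    |(q (Nat.pair (encode σ) p) : ℝ) / 2 ^ p - (μ (cyl σ)).toReal| ≤ 1 / 2 ^ p)

omit [IsProbabilityMeasure μ] in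
include happ in
lemma cnd_sum {p : ℕ} (l : List (Str × ℕ)) (hl : ∀ b ∈ l, q (Nat.pair (encode b.1) p) = b.2) :
    μ.real (⋃ γ ∈ l.map Prod.fst, cyl γ) ≤ (sm l : ℝ) / 2 ^ p := by
  rw [sm_eq]
  induction l with
  | nil => simp
  | cons b l ih =>
    have h1 : (⋃ γ ∈ (b :: l).map Prod.fst, cyl γ) = cyl b.1 ∪ ⋃ γ ∈ l.map Prod.fst, cyl γ := by
      ext Z
      simp only [List.map_cons, List.mem_cons, Set.mem_iUnion, exists_prop, Set.mem_union]
      constructor
      · rintro ⟨γ, rfl | hγ, hZ⟩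
        · left; exact hZ
        · right; exact ⟨γ, hγ, hZ⟩
      · rintro (hZ | ⟨γ, hγ, hZ⟩)
        · exact ⟨_, Or.inl rfl, hZ⟩
        · exact ⟨γ, Or.inr hγ, hZ⟩
    rw [h1]
    have h2 := measureReal_union_le (μ := μ) (cyl b.1) (⋃ γ ∈ l.map Prod.fst, cyl γ)
    have h3 := ih (fun b hb => hl b (List.mem_cons_of_mem _ hb))
    have h4 := happ b.1 p
    rw [hl b (by simp)] at h4
    have h5 : μ.real (cyl b.1) ≤ ((b.2 : ℝ) + 1) / 2 ^ p := by
      have := (abs_le.1 h4).1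
      unfold Measure.real
      rw [add_div]; linarith
    have h6 : ((((b :: l).map (fun b => b.2 + 1)).sum : ℕ) : ℝ) / 2 ^ p =
        ((b.2 : ℝ) + 1) / 2 ^ p + ((((l).map (fun b => b.2 + 1)).sum : ℕ) : ℝ) / 2 ^ p := by
      rw [List.map_cons, List.sum_cons]
      push_cast
      ring
    rw [h6]
    linarith

include happ in
lemma cnd_bound {j n p : ℕ} {l : List (Str × ℕ)} (h : Cnd C q j n p l) :
    μ.real (KK C n) ≤ (1 / 2) ^ j := by
  obtain ⟨⟨h1, h2⟩, h3⟩ := h
  have h4 : KK C n ⊆ ⋃ γ ∈ l.map Prod.fst, cyl γ := by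
    intro Z hZ
    simp only [Set.mem_iUnion, exists_prop]
    refine ⟨tk Z n, ?_, mem_cyl_tk Z n⟩
    rcases h1 (tk Z n) (hZ n (by omega)) with ⟨m, hm, h5⟩ | h5
    · exfalso
      apply h5
      rw [tk_take _ _ _ (by omega)]
      exact hZ m hm
    · exact h5
  have h5 := measureReal_mono (μ := μ) h4 (measure_ne_top _ _)
  have h6 := cnd_sum happ l h3
  have h7 : (sm l : ℝ) / 2 ^ p ≤ (1 / 2) ^ j := by
    have h8 : (sm l : ℝ) * 2 ^ j ≤ 2 ^ p := by exact_mod_cast h2
    rw [div_le_iff₀ (by positivity), one_div, inv_pow, ← div_eq_inv_mul,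
      le_div_iff₀ (by positivity)]
    exact h8
  linarith

include hlen happ in
lemma UU_bound (j : ℕ) : (μ (⋃ σ ∈ UU C q j, cyl σ)).toReal ≤ (1 / 2) ^ j := by
  classical
  by_cases hex : ∃ n, ∃ p l, Cnd C q j n p l
  · obtain ⟨p, l, hc⟩ := Nat.find_spec hex
    have h1 : (⋃ σ ∈ UU C q j, cyl σ) ⊆ KK C (Nat.find hex) := by
      intro Z hZ
      simp only [Set.mem_iUnion, exists_prop] at hZ
      obtain ⟨σ, ⟨n, p', l', hE, hc'⟩, hZ⟩ := hZ
      have h2 : Nat.find hex ≤ n := Nat.find_min' hex ⟨p', l', hc'⟩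
      exact KK_anti C h2 (KK_of_EE (hlen _ _ hE.1) hE hZ)
    exact (measureReal_mono (μ := μ) h1 (measure_ne_top _ _)).trans (cnd_bound happ hc)
  · have h1 : (⋃ σ ∈ UU C q j, cyl σ) = ∅ := by
      rw [Set.eq_empty_iff_forall_notMem]
      intro Z hZ
      simp only [Set.mem_iUnion, exists_prop] at hZ
      obtain ⟨σ, ⟨n, p', l', hE, hc'⟩, hZ⟩ := hZ
      exact hex ⟨n, p', l', hc'⟩
    rw [h1]
    simp

include hlen happ in
lemma UU_mem (hat : ∀ Z, μ {Z} = 0) {Y : ℕ → Bool} (hY : Y ∈ Pt C) (hcnt : (Pt C).Countable) (j : ℕ) :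
    ∃ σ ∈ UU C q j, Y ∈ cyl σ := by
  classical
  have h0 : μ (Pt C) = 0 := by
    have : NullSingletonClass μ := ⟨hat⟩
    exact hcnt.measure_zero μ
  have h1 := tendsto_measure_iInter_atTop (μ := μ) (s := KK C)
    (fun i => (KK_meas hlen i).nullMeasurableSet) (KK_anti C) ⟨0, measure_ne_top _ _⟩
  rw [KK_inter, h0] at h1
  have h2 : ∃ n, μ (KK C n) < ENNReal.ofReal ((1 / 2) ^ (j + 1)) := by
    have h3 : (0 : ENNReal) < ENNReal.ofReal ((1 / 2) ^ (j + 1)) := by
      rw [ENNReal.ofReal_pos]; positivity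
    exact (h1.eventually (gt_mem_nhds h3)).exists
  obtain ⟨n, hn⟩ := h2
  have hn' : μ.real (KK C n) ≤ (1 / 2) ^ (j + 1) := by
    have h4 := ENNReal.toReal_mono ENNReal.ofReal_ne_top hn.le
    rw [ENNReal.toReal_ofReal (by positivity)] at h4
    exact h4
  let l0 : List Str := ((C n).filter (fun γ => decide (EE C n γ))).dedup
  have hl0 : ∀ γ, γ ∈ l0 ↔ γ ∈ C n ∧ EE C n γ := by
    intro γ
    simp [l0]
  let p := l0.length + j + 2
  have hsum : (l0.map (fun γ => μ.real (cyl γ))).sum ≤ μ.real (KK C n) := by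
    have hnd : l0.Nodup := List.nodup_dedup _
    rw [← List.sum_toFinset _ hnd, ← measureReal_biUnion_finset]
    · refine measureReal_mono ?_ (measure_ne_top _ _)
      intro Z hZ
      simp only [Set.mem_iUnion, exists_prop, List.mem_toFinset] at hZ
      obtain ⟨γ, hγ, hZ⟩ := hZ
      have := (hl0 γ).1 hγ
      exact KK_of_EE (hlen _ _ this.1) this.2 hZ
    · intro γ hγ γ' hγ' hne
      rw [Function.onFun, Set.disjoint_left]
      intro Z hZ hZ'
      apply hne
      have e1 := hlen _ _ ((hl0 γ).1 (by simpa using hγ)).1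
      have e2 := hlen _ _ ((hl0 γ').1 (by simpa using hγ')).1
      have f1 : tk Z γ.length = γ := hZ
      have f2 : tk Z γ'.length = γ' := hZ'
      rw [← f1, ← f2, e1, e2]
    · intro γ _
      exact cyl_meas γ
  have hcnd : Cnd C q j n p (l0.map (fun γ => (γ, q (Nat.pair (encode γ) p)))) := by
    refine ⟨⟨?_, ?_⟩, ?_⟩
    · intro γ hγ
      by_cases hE : EE C n γ
      · right
        rw [List.map_map]
        have : (Prod.fst ∘ fun γ : Str => (γ, q (Nat.pair (encode γ) p))) = id := rfl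
        rw [this, List.map_id]
        exact (hl0 γ).2 ⟨hγ, hE⟩
      · left
        unfold EE at hE
        push Not at hE
        exact hE hγ
    · rw [sm_eq, List.map_map]
      have hb : (((l0.map ((fun b : Str × ℕ => b.2 + 1) ∘ fun γ : Str =>
          (γ, q (Nat.pair (encode γ) p)))).sum : ℕ) : ℝ) ≤
          2 ^ p * (l0.map (fun γ => μ.real (cyl γ))).sum + 2 * l0.length := by
        clear hsum
        generalize l0 = l
        induction l with
        | nil => simp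
        | cons γ l ih =>
          rw [List.map_cons, List.sum_cons, List.map_cons, List.sum_cons, List.length_cons]
          have h4 := happ γ p
          have h5 := (abs_le.1 h4).2
          have h6 : (q (Nat.pair (encode γ) p) : ℝ) ≤ 2 ^ p * μ.real (cyl γ) + 1 := by
            have h7 : (q (Nat.pair (encode γ) p) : ℝ) / 2 ^ p ≤ μ.real (cyl γ) + 1 / 2 ^ p := by
              unfold Measure.real; linarith
            have h8 : (0 : ℝ) < 2 ^ p := by positivity
            rw [div_le_iff₀ h8] at h7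
            have h9 : (μ.real (cyl γ) + 1 / 2 ^ p) * 2 ^ p = 2 ^ p * μ.real (cyl γ) + 1 := by
              field_simp
            linarith
          push_cast at ih ⊢
          simp only [Function.comp_apply] at ih ⊢
          push_cast
          nlinarith
      have h3 : (((l0.map ((fun b : Str × ℕ => b.2 + 1) ∘ fun γ : Str =>
          (γ, q (Nat.pair (encode γ) p)))).sum : ℕ) : ℝ) * 2 ^ j ≤ 2 ^ p := by
        have h4 : (2 : ℝ) ^ p * (l0.map (fun γ => μ.real (cyl γ))).sum ≤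
            2 ^ p * (1 / 2) ^ (j + 1) :=
          mul_le_mul_of_nonneg_left (hsum.trans hn') (by positivity)
        have h5 : (l0.length : ℝ) ≤ 2 ^ l0.length := by
          exact_mod_cast (Nat.lt_two_pow_self (n := l0.length)).le
        have h6 : (2 : ℝ) ^ p = 2 ^ l0.length * 2 ^ (j + 2) := by
          rw [← pow_add]
          congr 1
        have h7 : (2 : ℝ) ^ (j + 2) = 4 * 2 ^ j := by rw [pow_add]; ring
        have h8 : ((1 : ℝ) / 2) ^ (j + 1) * 2 ^ j = 1 / 2 := by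
          rw [pow_succ, one_div, inv_pow]
          field_simp
        have h9 : (0 : ℝ) < 2 ^ j := by positivity
        calc (((l0.map ((fun b : Str × ℕ => b.2 + 1) ∘ fun γ : Str =>
              (γ, q (Nat.pair (encode γ) p)))).sum : ℕ) : ℝ) * 2 ^ j
            ≤ (2 ^ p * (1 / 2) ^ (j + 1) + 2 * l0.length) * 2 ^ j :=
              mul_le_mul_of_nonneg_right (by linarith) h9.le
          _ = 2 ^ p * ((1 / 2) ^ (j + 1) * 2 ^ j) + 2 * l0.length * 2 ^ j := by ring
          _ = 2 ^ p * (1 / 2) + 2 * l0.length * 2 ^ j := by rw [h8]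
          _ ≤ 2 ^ p * (1 / 2) + 2 * 2 ^ l0.length * 2 ^ j := by
              have := mul_le_mul_of_nonneg_right h5 h9.le
              linarith
          _ = 2 ^ p := by rw [h6, h7]; ring
      exact_mod_cast h3
    · intro b hb
      obtain ⟨γ, _, rfl⟩ := List.mem_map.1 hb
      rfl
  have hYK : Y ∈ KK C n := fun m _ => hY m
  exact ⟨tk Y n, ⟨n, p, _, EE_tk hYK, hcnd⟩, mem_cyl_tk Y n⟩

end measure

/-- A member of a countable effectively closed class is covered by a test for every continuous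
measure. -/
theorem ncr_core {C : ℕ → List Str} (hC : Computable C) (hlen : ∀ n, ∀ γ ∈ C n, γ.length = n)
    {Y : ℕ → Bool} (hY : Y ∈ Pt C) (hcnt : (Pt C).Countable)
    (μ : Measure (ℕ → Bool)) [IsProbabilityMeasure μ]
    (hat : ∀ Z, μ {Z} = 0) {R : ℕ → Bool} {q : ℕ → ℕ}
    (hq : TuringReducible (fun n => Part.some (q n)) (orc R))
    (happ : ∀ (σ : Str) (p : ℕ),
      |(q (Nat.pair (encode σ) p) : ℝ) / 2 ^ p - (μ (cyl σ)).toReal| ≤ 1 / 2 ^ p) :
    ∃ U : ℕ → Set Str, (∃ φ : ℕ →. ℕ, TuringReducible φ (orc R) ∧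
        ∀ n σ, (φ (Nat.pair n (encode σ))).Dom ↔ σ ∈ U n) ∧
      (∀ n, (μ (⋃ σ ∈ U n, cyl σ)).toReal ≤ (1 / 2) ^ n) ∧ ∀ n, ∃ σ ∈ U n, Y ∈ cyl σ := by
  refine ⟨UU C q, ?_, fun j => UU_bound hlen happ j, fun j => UU_mem hlen happ hat hY hcnt j⟩
  rw [orc_chi] at hq ⊢
  have h1 := UU_rein hC (turingReducible_fun_iff.1 hq)
  have h2 : REIn {n | R n = true} (fun z : ℕ =>
      ((decode (α := Str) z.unpair.2).getD []) ∈ UU C q z.unpair.1) :=
    h1.comp (f := fun z : ℕ => (z.unpair.1, (decode (α := Str) z.unpair.2).getD []))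
      (by
        have : Computable (fun z : ℕ => (decode (α := Str) z.unpair.2).getD []) := by
          refine cgetD ?_
          fun_prop
        fun_prop)
  obtain ⟨φ, hφ, hdom⟩ := rein_dom h2
  refine ⟨φ, RecursiveIn.iff_nat.2 hφ, fun n σ => ?_⟩
  rw [hdom, Nat.unpair_pair]
  simp

end Pool.Agent.NH86.NCR
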