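import Mathlib

set_option autoImplicit false

/-! A nested construction of an effectively closed class: the definitions and basic facts. -/

namespace Pool.Agent.NH86.NCR

/-- strings -/
abbrev Str := List Bool
/-- finite tables -/
abbrev Tab := List (Str × Str)
/-- states `((n, T), (dn, pd))`: the round, the table of the previous rounds, the strings which are
done and the strings which are pending -/
abbrev St := (ℕ × Tab) × (Tab × Tab)
/-- environments -/
abbrev Env := ℕ → Str → ℕ → Bool

def pad (k : ℕ) (s : Str) : Str := s ++ List.replicate (k - s.length) false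

def lk (T : Tab) (σ : Str) : Str := (T.lookup σ).getD []

def hA (st : St) : Str := st.2.2.headI.1
def hR (st : St) : Str := st.2.2.headI.2

def fnd (c : Str → ℕ → Bool) (st : St) (q : List Str) : Option Str :=
  q.find? (fun b => c (hR st ++ b) st.1.1)

def newT (st : St) (b : Str) : Tab := st.1.2 ++ (st.2.1 ++ [(hA st, hR st ++ b)])

def newP (k : ℕ) (T : Tab) (α : Str) : Str × Str :=
  (α, pad k (lk T α.dropLast) ++ [α.getLastD false])

def step (c : Str → ℕ → Bool) (k : ℕ) (st : St) (q1 q2 : List Str) : St :=
  match fnd c st q1 with
  | none => st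
  | some b =>
    match st.2.2.tail with
    | [] => ((st.1.1 + 1, newT st b), ([], q2.map (newP k (newT st b))))
    | p :: pd' => (st.1, (st.2.1 ++ [(hA st, hR st ++ b)], (p.1, pad (k + 1) p.2) :: pd'))

def sh (V : Env) (r : Str) : Env := fun e σ n => V (e + 1) (r ++ σ) n
def cm (V : Env) (T : Tab) : Env := fun e σ n => V (e + 1) (lk T σ) n

def nxt (L : ℕ → Env → List Str) (V : Env) (k : ℕ) (st : St) : St :=
  step (V 0) k st (L (k - (hR st).length) (sh V (hR st)))
    (L (st.1.1 + 1) (cm V (newT st ((fnd (V 0) st
      (L (k - (hR st).length) (sh V (hR st)))).getD []))))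

def stN (L : ℕ → Env → List Str) (V : Env) : ℕ → St
  | 0 => ((0, []), ([], [([], [false])]))
  | i + 1 => nxt L V (i + 1) (stN L V i)

def outF (k : ℕ) (st : St) (q : List Str) : List Str :=
  (true :: List.replicate (k - 1) false) :: (st.2.1.map (fun p => pad k p.2) ++
   (q.map (hR st ++ ·) ++ st.2.2.tail.map (fun p => pad k p.2)))

def live (k : ℕ) (V : Env) : List Str :=
  match k with
  | 0 => [[]]
  | i + 1 =>
    let L : ℕ → Env → List Str := fun j V' => if _h : j < i + 1 then live j V' else [[]]
    outF (i + 1) (stN L V i)
      (L (i + 1 - (hR (stN L V i)).length) (sh V (hR (stN L V i))))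
termination_by k

/-- guarded oracle -/
def Lg (i : ℕ) : ℕ → Env → List Str := fun j V' => if j < i + 1 then live j V' else [[]]

lemma live_zero (V : Env) : live 0 V = [[]] := by rw [live]

lemma live_g (i : ℕ) (V : Env) : live (i + 1) V = outF (i + 1) (stN (Lg i) V i)
    (Lg i (i + 1 - (hR (stN (Lg i) V i)).length) (sh V (hR (stN (Lg i) V i)))) := by
  rw [live]
  rfl

/-! pads -/

lemma pad_length {k : ℕ} {s : Str} (h : s.length ≤ k) : (pad k s).length = k := by
  unfold pad; simp; omega

lemma pre_pad (k : ℕ) (s : Str) : s <+: pad k s := List.prefix_append _ _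

/-! the step -/

lemma fnd_none {c : Str → ℕ → Bool} {n : ℕ} {T dn pd : Tab} {a r : Str} {q : List Str}
    (h : fnd c ((n, T), (dn, (a, r) :: pd)) q = none) : ∀ b ∈ q, c (r ++ b) n = false := by
  unfold fnd hR at h
  simp only [List.headI_cons, List.find?_eq_none] at h
  intro b hb
  have := h b hb
  simpa using this

lemma fnd_some {c : Str → ℕ → Bool} {n : ℕ} {T dn pd : Tab} {a r : Str} {q : List Str} {b : Str}
    (h : fnd c ((n, T), (dn, (a, r) :: pd)) q = some b) : b ∈ q ∧ c (r ++ b) n = true := by
  unfold fnd hR at h
  simp only [List.headI_cons] at h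
  exact ⟨List.mem_of_find?_eq_some h, by simpa using List.find?_some h⟩

lemma step_none {c : Str → ℕ → Bool} {k : ℕ} {st : St} {q1 q2 : List Str}
    (h : fnd c st q1 = none) : step c k st q1 q2 = st := by
  unfold step; rw [h]

lemma step_more {c : Str → ℕ → Bool} {k n : ℕ} {T dn pd : Tab} {a r : Str} {p : Str × Str}
    {q1 q2 : List Str} {b : Str} (h : fnd c ((n, T), (dn, (a, r) :: p :: pd)) q1 = some b) :
    step c k ((n, T), (dn, (a, r) :: p :: pd)) q1 q2 =
      ((n, T), (dn ++ [(a, r ++ b)], (p.1, pad (k + 1) p.2) :: pd)) := by
  unfold step; rw [h]; rfl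

lemma step_last {c : Str → ℕ → Bool} {k n : ℕ} {T dn : Tab} {a r : Str}
    {q1 q2 : List Str} {b : Str} (h : fnd c ((n, T), (dn, [(a, r)])) q1 = some b) :
    step c k ((n, T), (dn, [(a, r)])) q1 q2 =
      ((n + 1, T ++ (dn ++ [(a, r ++ b)])),
        ([], q2.map (newP k (T ++ (dn ++ [(a, r ++ b)]))))) := by
  unfold step; rw [h]; rfl

/-! basic invariants -/

structure Inv1 (i : ℕ) (st : St) : Prop where
  ne : st.2.2 ≠ []
  pd1 : ∀ p ∈ st.2.2, 1 ≤ p.2.length ∧ p.2.length ≤ i + 1
  nle : st.1.1 ≤ i
  dn1 : ∀ p ∈ st.1.2 ++ st.2.1, p.2.length ≤ i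

lemma lk_mem_or (T : Tab) (σ : Str) : (σ, lk T σ) ∈ T ∨ (σ ∉ T.map Prod.fst ∧ lk T σ = []) := by
  unfold lk
  induction T with
  | nil => right; simp
  | cons p T ih =>
    obtain ⟨a, b⟩ := p
    by_cases h : σ = a
    · subst h; left; simp [List.lookup]
    · have : (σ == a) = false := by simpa using h
      rw [List.lookup, this]
      rcases ih with ih | ih
      · left; exact List.mem_cons_of_mem _ ih
      · right
        refine ⟨?_, ih.2⟩
        simp only [List.map_cons, List.mem_cons, not_or]
        exact ⟨h, ih.1⟩

lemma lk_len {T : Tab} {m : ℕ} (h : ∀ p ∈ T, p.2.length ≤ m) (σ : Str) : (lk T σ).length ≤ m := by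
  rcases lk_mem_or T σ with h1 | h1
  · exact h _ h1
  · rw [h1.2]; simp

lemma inv1_zero (L : ℕ → Env → List Str) (V : Env) : Inv1 0 (stN L V 0) := by
  constructor <;> simp [stN]

lemma inv1_nxt {L : ℕ → Env → List Str} {V : Env} {i : ℕ} {st : St}
    (hL : ∀ j, j ≤ i + 1 → ∀ V', (∀ x ∈ L j V', x.length = j) ∧ L j V' ≠ [])
    (h : Inv1 i st) : Inv1 (i + 1) (nxt L V (i + 1) st) := by
  obtain ⟨⟨n, T⟩, ⟨dn, pd⟩⟩ := st
  have hne := h.ne
  simp only at hne
  obtain ⟨⟨a, r⟩, pd, rfl⟩ := List.exists_cons_of_ne_nil hne
  have hr := h.pd1 (a, r) (by simp)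
  have hn := h.nle
  simp only at hr hn
  unfold nxt
  have e1 : hR ((n, T), (dn, (a, r) :: pd)) = r := rfl
  rw [e1]
  generalize hq1 : L (i + 1 - r.length) (sh V r) = q1
  cases hf : fnd (V 0) ((n, T), (dn, (a, r) :: pd)) q1 with
  | none =>
    rw [step_none hf]
    constructor
    · simp
    · intro p hp
      have := h.pd1 p hp
      omega
    · simp only; omega
    · intro p hp
      have := h.dn1 p hp
      omega
  | some b =>
    have hb := (fnd_some hf).1
    have hbl : b.length = i + 1 - r.length := by
      rw [← hq1] at hb
      exact (hL _ (by omega) _).1 b hb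
    have hrb : (r ++ b).length = i + 1 := by rw [List.length_append]; omega
    cases pd with
    | cons p pd' =>
      rw [step_more hf]
      constructor
      · simp
      · intro q hq
        simp only [List.mem_cons] at hq
        rcases hq with rfl | hq
        · have hp := h.pd1 p (by simp)
          simp only
          rw [pad_length (by omega)]
          omega
        · have := h.pd1 q (by simp [hq])
          omega
      · simp only; omega
      · intro q hq
        simp only [List.mem_append, List.mem_singleton] at hq
        rcases hq with hq | hq | rfl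
        · have := h.dn1 q (by simp [hq]); omega
        · have := h.dn1 q (by simp [hq]); omega
        · simp only; omega
    | nil =>
      rw [step_last hf]
      have hT : ∀ p ∈ T ++ (dn ++ [(a, r ++ b)]), p.2.length ≤ i + 1 := by
        intro q hq
        simp only [List.mem_append, List.mem_singleton] at hq
        rcases hq with hq | hq | rfl
        · have := h.dn1 q (by simp [hq]); omega
        · have := h.dn1 q (by simp [hq]); omega
        · simp only; omega
      constructor
      · simp only [ne_eq, List.map_eq_nil_iff]
        exact (hL _ (by omega) _).2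
      · intro q hq
        simp only [List.mem_map] at hq
        obtain ⟨α, hα, rfl⟩ := hq
        unfold newP
        simp only [List.length_append, List.length_singleton]
        rw [pad_length (lk_len hT _)]
        omega
      · simp only; omega
      · intro q hq
        simp only [List.append_nil] at hq
        exact hT q hq

lemma nxt_congr {L L' : ℕ → Env → List Str} {V : Env} {i : ℕ} {st : St}
    (hL : ∀ j, j ≤ i + 1 → ∀ V', L j V' = L' j V') (h : Inv1 i st) :
    nxt L V (i + 1) st = nxt L' V (i + 1) st := by
  unfold nxt
  rw [hL _ (by omega) (sh V (hR st)), hL _ (by have := h.nle; omega)]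

lemma out_len {i : ℕ} {st : St} {q : List Str} (h : Inv1 i st)
    (hq : ∀ x ∈ q, x.length = i + 1 - (hR st).length) :
    ∀ x ∈ outF (i + 1) st q, x.length = i + 1 := by
  obtain ⟨⟨n, T⟩, ⟨dn, pd⟩⟩ := st
  have hne := h.ne
  simp only at hne
  obtain ⟨⟨a, r⟩, pd, rfl⟩ := List.exists_cons_of_ne_nil hne
  have hr := h.pd1 (a, r) (by simp)
  intro x hx
  have e1 : hR ((n, T), (dn, (a, r) :: pd)) = r := rfl
  unfold outF at hx
  rw [e1] at hx hq
  simp only [List.mem_cons, List.mem_append, List.mem_map, List.tail_cons] at hx
  simp only at hr
  rcases hx with rfl | ⟨p, hp, rfl⟩ | ⟨b, hb, rfl⟩ | ⟨p, hp, rfl⟩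
  · simp
  · exact pad_length (by have := h.dn1 p (by simp [hp]); omega)
  · rw [List.length_append, hq b hb]; omega
  · exact pad_length (by have := h.pd1 p (by simp [hp]); omega)

lemma basic (k : ℕ) : (∀ V, (∀ x ∈ live k V, x.length = k) ∧ live k V ≠ []) ∧
    ∀ i, i + 1 = k → ∀ V, ∀ j, j ≤ i → Inv1 j (stN live V j) ∧ stN (Lg i) V j = stN live V j := by
  induction k using Nat.strong_induction_on with
  | _ k ih =>
    have hB : ∀ i, i + 1 = k → ∀ V, ∀ j, j ≤ i →
        Inv1 j (stN live V j) ∧ stN (Lg i) V j = stN live V j := by
      intro i hi V j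
      induction j with
      | zero => exact fun _ => ⟨inv1_zero _ _, rfl⟩
      | succ j ihj =>
        intro hj
        obtain ⟨h1, h2⟩ := ihj (by omega)
        refine ⟨inv1_nxt (fun j' hj' V' => (ih j' (by omega)).1 V') h1, ?_⟩
        show nxt (Lg i) V (j + 1) (stN (Lg i) V j) = nxt live V (j + 1) (stN live V j)
        rw [h2]
        refine nxt_congr (fun j' hj' V' => ?_) h1
        unfold Lg
        rw [if_pos (by omega)]
    refine ⟨?_, hB⟩
    intro V
    cases k with
    | zero => rw [live_zero]; simp
    | succ i =>
      rw [live_g]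
      obtain ⟨h1, h2⟩ := hB i rfl V i le_rfl
      rw [h2]
      refine ⟨out_len h1 ?_, by simp [outF]⟩
      intro x hx
      have hr : 1 ≤ (hR (stN live V i)).length := by
        have hne := h1.ne
        obtain ⟨p, pd, hp⟩ := List.exists_cons_of_ne_nil hne
        have := h1.pd1 p (by rw [hp]; simp)
        unfold hR
        rw [hp]; exact this.1
      unfold Lg at hx
      rw [if_pos (by omega)] at hx
      exact (ih _ (by omega)).1 _ |>.1 x hx

lemma live_len {k : ℕ} {V : Env} {x : Str} (h : x ∈ live k V) : x.length = k :=
  ((basic k).1 V).1 x h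

lemma live_ne (k : ℕ) (V : Env) : live k V ≠ [] := ((basic k).1 V).2

lemma inv1 (V : Env) (i : ℕ) : Inv1 i (stN live V i) := ((basic (i + 1)).2 i rfl V i le_rfl).1

lemma hR_pos (V : Env) (i : ℕ) : 1 ≤ (hR (stN live V i)).length := by
  obtain ⟨p, pd, hp⟩ := List.exists_cons_of_ne_nil (inv1 V i).ne
  have := (inv1 V i).pd1 p (by rw [hp]; simp)
  unfold hR
  rw [hp]; exact this.1

lemma hR_le (V : Env) (i : ℕ) : (hR (stN live V i)).length ≤ i + 1 := by
  obtain ⟨p, pd, hp⟩ := List.exists_cons_of_ne_nil (inv1 V i).ne
  have := (inv1 V i).pd1 p (by rw [hp]; simp)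
  unfold hR
  rw [hp]; exact this.2

lemma live_succ (i : ℕ) (V : Env) : live (i + 1) V = outF (i + 1) (stN live V i)
    (live (i + 1 - (hR (stN live V i)).length) (sh V (hR (stN live V i)))) := by
  rw [live_g, ((basic (i + 1)).2 i rfl V i le_rfl).2]
  congr 1
  unfold Lg
  rw [if_pos (by have := hR_pos V i; omega)]

lemma stN_succ (i : ℕ) (V : Env) : stN live V (i + 1) = nxt live V (i + 1) (stN live V i) := rfl

/-! locality -/

lemma find_congr {p p' : Str → Bool} {l : List Str} (h : ∀ x ∈ l, p x = p' x) :
    l.find? p = l.find? p' := by
  induction l with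
  | nil => rfl
  | cons a l ih =>
    rw [List.find?_cons, List.find?_cons, h a (by simp), ih (fun x hx => h x (by simp [hx]))]

lemma live_congr (k : ℕ) : ∀ V V' : Env, (∀ e σ n, σ.length < k → V e σ n = V' e σ n) →
    live k V = live k V' := by
  induction k using Nat.strong_induction_on with
  | _ k ih =>
    intro V V' h
    cases k with
    | zero => rw [live_zero, live_zero]
    | succ m =>
      have key : ∀ i, i ≤ m → live (i + 1 - (hR (stN live V i)).length)
          (sh V (hR (stN live V i))) = live (i + 1 - (hR (stN live V i)).length)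
          (sh V' (hR (stN live V i))) := by
        intro i hi
        refine ih _ (by have := hR_pos V i; omega) _ _ ?_
        intro e σ n hσ
        unfold sh
        refine h _ _ _ ?_
        rw [List.length_append]
        omega
      have hst : ∀ i, i ≤ m → stN live V i = stN live V' i := by
        intro i
        induction i with
        | zero => intro _; rfl
        | succ i ihi =>
          intro hi
          have e := ihi (by omega)
          rw [stN_succ, stN_succ, ← e]
          have hI := inv1 V i
          have hk := key i (by omega)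
          generalize hst : stN live V i = st at *
          have hr : (hR st).length ≤ i + 1 := by rw [← hst]; exact hR_le V i
          unfold nxt
          rw [← hk]
          generalize hq : live (i + 1 - (hR st).length) (sh V (hR st)) = q1
          have hql : ∀ b ∈ q1, b.length = i + 1 - (hR st).length := by
            intro b hb; rw [← hq] at hb; exact live_len hb
          have ef : fnd (V 0) st q1 = fnd (V' 0) st q1 := by
            unfold fnd
            refine find_congr (fun b hb => ?_)
            refine h _ _ _ ?_
            rw [List.length_append, hql b hb]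
            omega
          rw [← ef]
          have ec : cm V (newT st ((fnd (V 0) st q1).getD [])) =
              cm V' (newT st ((fnd (V 0) st q1).getD [])) := by
            funext e σ n
            unfold cm
            refine h _ _ _ ?_
            have : (lk (newT st ((fnd (V 0) st q1).getD [])) σ).length ≤ i + 1 := by
              refine lk_len ?_ σ
              intro p hp
              unfold newT at hp
              simp only [List.mem_append, List.mem_singleton] at hp
              rcases hp with hp | hp | rfl
              · have := hI.dn1 p (by simp [hp]); omega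
              · have := hI.dn1 p (by simp [hp]); omega
              · simp only [List.length_append]
                cases hf : fnd (V 0) st q1 with
                | none => simp only [Option.getD_none, List.length_nil]; omega
                | some b =>
                  have hb : b ∈ q1 := by
                    unfold fnd at hf; exact List.mem_of_find?_eq_some hf
                  simp only [Option.getD_some]
                  rw [hql b hb]; omega
            omega
          rw [← ec]
          unfold step
          rw [← ef]
      rw [live_succ, live_succ, ← hst m le_rfl, key m le_rfl]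

end Pool.Agent.NH86.NCR
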