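import Pool.Agent.NH86.NCR.Proc

set_option autoImplicit false

/-! A nested construction of an effectively closed class: invariants. -/

namespace Pool.Agent.NH86.NCR

/-- comparable strings -/
def Cmp (s t : Str) : Prop := s <+: t ∨ t <+: s

lemma Cmp.of_pre {s t s' t' : Str} (h : Cmp s' t') (h1 : s <+: s') (h2 : t <+: t') : Cmp s t := by
  rcases h with h | h
  · exact List.prefix_or_prefix_of_prefix (h1.trans h) h2
  · exact List.prefix_or_prefix_of_prefix h1 (h2.trans h)

lemma Cmp.eq {s t : Str} (h : Cmp s t) (hl : s.length = t.length) : s = t := by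
  rcases h with h | h
  · exact h.eq_of_length hl
  · exact (h.eq_of_length hl.symm).symm

lemma lk_append (T X : Tab) (σ : Str) (h : σ ∉ T.map Prod.fst) : lk (T ++ X) σ = lk X σ := by
  unfold lk
  induction T with
  | nil => rfl
  | cons p T ih =>
    simp only [List.map_cons, List.mem_cons, not_or] at h
    have h1 : (σ == p.1) = false := by simpa using h.1
    have h2 : List.lookup σ (p :: T ++ X) = List.lookup σ (T ++ X) := by
      obtain ⟨a, b⟩ := p
      rw [List.cons_append, List.lookup, h1]
    rw [h2]
    exact ih h.2

lemma lk_append' (T X : Tab) (σ : Str) (h : σ ∉ X.map Prod.fst) : lk (T ++ X) σ = lk T σ := by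
  unfold lk
  induction T with
  | nil =>
    rcases lk_mem_or X σ with h1 | h1
    · exact absurd (List.mem_map_of_mem h1) h
    · have := h1.2
      unfold lk at this
      simpa using this
  | cons p T ih =>
    obtain ⟨a, b⟩ := p
    by_cases h1 : (σ == a) = true
    · rw [List.cons_append, List.lookup, List.lookup, h1]
    · have h1 : (σ == a) = false := by simpa using h1
      rw [List.cons_append, List.lookup, List.lookup, h1]
      exact ih

lemma live_cm_congr {V : Env} {T T' : Tab} {n : ℕ} (h : ∀ σ : Str, σ.length < n → lk T' σ = lk T σ)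
    {j : ℕ} (hj : j ≤ n) : live j (cm V T') = live j (cm V T) := by
  refine live_congr j _ _ (fun e σ m hσ => ?_)
  unfold cm
  rw [h σ (by omega)]

def NN (m : ℕ) : Prop := ∀ V, (live m V).Nodup ∧
  (∀ x ∈ live m V, 1 ≤ m → x.dropLast ∈ live (m - 1) V)

structure Inv (V : Env) (i : ℕ) (st : St) : Prop where
  f0 : ∀ p ∈ st.2.1 ++ st.2.2, [false] <+: p.2
  low : ∀ p ∈ st.2.1 ++ st.2.2, st.1.1 + 1 ≤ p.2.length
  adr : (st.2.1 ++ st.2.2).map Prod.fst = live st.1.1 (cm V st.1.2)
  key : ∀ p ∈ st.1.2, p.1.length < st.1.1
  inc : ∀ p ∈ st.2.1 ++ st.2.2, ∀ q ∈ st.2.1 ++ st.2.2, Cmp p.2 q.2 → p.1 = q.1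
  chk : ∀ p ∈ st.2.1, V 0 p.2 st.1.1 = true
  dlv : ∀ p ∈ st.2.1, p.2 ∈ live p.2.length V
  hist : ∀ j, (hR st).length + j ≤ i + 1 → ∀ β ∈ live j (sh V (hR st)),
    hR st ++ β ∈ live ((hR st).length + j) V
  stt : ∀ m, st.1.1 = m + 1 → ∃ kk, ∀ p ∈ st.2.1 ++ st.2.2,
    (lk st.1.2 p.1.dropLast).length ≤ kk ∧
    pad kk (lk st.1.2 p.1.dropLast) ++ [p.1.getLastD false] <+: p.2
  tab : ∀ m, m < st.1.1 → ∀ γ ∈ live m (cm V st.1.2),
    lk st.1.2 γ ∈ live (lk st.1.2 γ).length V ∧ V 0 (lk st.1.2 γ) m = true ∧
    m + 1 ≤ (lk st.1.2 γ).length ∧ [false] <+: lk st.1.2 γ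
  tinc : ∀ m, m < st.1.1 → ∀ γ ∈ live m (cm V st.1.2), ∀ γ' ∈ live m (cm V st.1.2),
    Cmp (lk st.1.2 γ) (lk st.1.2 γ') → γ = γ'
  tst : ∀ m, m + 1 < st.1.1 → ∃ kk, ∀ α ∈ live (m + 1) (cm V st.1.2),
    (lk st.1.2 α.dropLast).length ≤ kk ∧
    pad kk (lk st.1.2 α.dropLast) ++ [α.getLastD false] <+: lk st.1.2 α

lemma out_mem {V : Env} {i : ℕ} {β : Str}
    (h : β ∈ live (i + 1 - (hR (stN live V i)).length) (sh V (hR (stN live V i)))) :
    hR (stN live V i) ++ β ∈ live (i + 1) V := by
  rw [live_succ]
  unfold outF
  simp only [List.mem_cons, List.mem_append, List.mem_map]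
  right; right; left
  exact ⟨β, h, rfl⟩

lemma split_last {α : Str} {n : ℕ} (h : α.length = n + 1) :
    α.dropLast ++ [α.getLastD false] = α := by
  have hne : α ≠ [] := by rintro rfl; simp at h
  rw [List.getLastD_eq_getLast?, List.getLast?_eq_some_getLast hne]
  exact List.dropLast_append_getLast hne

lemma inv_zero (V : Env) : Inv V 0 (stN live V 0) := by
  have h1 : live 1 V = [[true], [false]] := by
    rw [live_succ]
    simp [outF, stN, hR, live_zero]
  constructor
  · simp [stN]
  · simp [stN]
  · simp [stN, live_zero]
  · simp [stN]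
  · simp [stN]
  · simp [stN]
  · simp [stN]
  · intro j hj β hβ
    have e : hR (stN live V 0) = [false] := rfl
    rw [e] at hj hβ ⊢
    simp only [List.length_singleton] at hj
    have : j = 0 := by omega
    subst this
    rw [live_zero] at hβ
    simp only [List.mem_singleton] at hβ
    subst hβ
    simp [h1]
  · intro m hm; simp [stN] at hm
  · intro m hm; simp [stN] at hm
  · intro m hm; simp [stN] at hm
  · intro m hm; simp [stN] at hm

lemma inv_succ {V : Env} {i : ℕ} (hNN : ∀ j, j ≤ i + 1 → NN j) (h : Inv V i (stN live V i)) :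
    Inv V (i + 1) (stN live V (i + 1)) := by
  have hI := inv1 V i
  have hout := @out_mem V (i + 1)
  have hrle := hR_le V (i + 1)
  have hrpos := hR_pos V (i + 1)
  have houti := @out_mem V i
  rw [stN_succ] at hout hrle hrpos ⊢
  generalize hst : stN live V i = st at *
  obtain ⟨⟨n, T⟩, ⟨dn, pd⟩⟩ := st
  have hne := hI.ne
  simp only at hne
  obtain ⟨⟨a, r⟩, pd, rfl⟩ := List.exists_cons_of_ne_nil hne
  have hr := hI.pd1 (a, r) (by simp)
  have hn := hI.nle
  simp only at hr hn
  unfold nxt at hout hrle hrpos ⊢
  have e1 : hR ((n, T), (dn, (a, r) :: pd)) = r := rfl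
  rw [e1] at hout hrle hrpos houti ⊢
  generalize hq1 : live (i + 1 - r.length) (sh V r) = q1 at *
  cases hf : fnd (V 0) ((n, T), (dn, (a, r) :: pd)) q1 with
  | none =>
    rw [step_none hf] at hout hrle hrpos ⊢
    refine ⟨h.f0, h.low, h.adr, h.key, h.inc, h.chk, h.dlv, ?_, h.stt, h.tab, h.tinc, h.tst⟩
    intro j hj β hβ
    rw [e1] at hj hβ ⊢
    by_cases hj' : r.length + j ≤ i + 1
    · exact h.hist j hj' β hβ
    · have e2 : r.length + j = i + 1 + 1 := by omega
      rw [e2]
      refine hout ?_
      rw [e1]
      have e3 : i + 1 + 1 - r.length = j := by omega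
      rw [e3]; exact hβ
  | some b =>
    obtain ⟨hb, hc⟩ := fnd_some hf
    have hbl : b.length = i + 1 - r.length := by
      rw [← hq1] at hb
      exact live_len hb
    have hrb : (r ++ b).length = i + 1 := by rw [List.length_append]; omega
    have hlive : r ++ b ∈ live (r ++ b).length V := by
      rw [hrb]
      exact houti hb
    cases pd with
    | cons p pd' =>
      rw [step_more hf] at hout hrle hrpos ⊢
      have hp := hI.pd1 p (by simp)
      -- new items extend old items
      have hext : ∀ q ∈ (dn ++ [(a, r ++ b)]) ++ ((p.1, pad (i + 1 + 1) p.2) :: pd'),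
          ∃ q0 ∈ dn ++ ((a, r) :: p :: pd'), q0.1 = q.1 ∧ q0.2 <+: q.2 := by
        intro q hq
        simp only [List.mem_append, List.mem_cons, List.not_mem_nil, or_false] at hq
        rcases hq with (hq | rfl) | rfl | hq
        · exact ⟨q, by simp [hq], rfl, List.prefix_rfl⟩
        · exact ⟨(a, r), by simp, rfl, List.prefix_append _ _⟩
        · exact ⟨p, by simp, rfl, pre_pad _ _⟩
        · exact ⟨q, by simp [hq], rfl, List.prefix_rfl⟩
      constructor
      · intro q hq
        obtain ⟨q0, h1, _, h3⟩ := hext q hq
        exact (h.f0 q0 h1).trans h3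
      · intro q hq
        obtain ⟨q0, h1, _, h3⟩ := hext q hq
        exact le_trans (h.low q0 h1) h3.length_le
      · have := h.adr
        simp only [List.map_append, List.map_cons, List.append_assoc,
          List.cons_append, List.nil_append] at this ⊢
        exact this
      · exact h.key
      · intro q hq q' hq' hcmp
        obtain ⟨q0, h1, h2, h3⟩ := hext q hq
        obtain ⟨q1, h1', h2', h3'⟩ := hext q' hq'
        rw [← h2, ← h2']
        exact h.inc q0 h1 q1 h1' (hcmp.of_pre h3 h3')
      · intro q hq
        simp only [List.mem_append, List.mem_singleton] at hq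
        rcases hq with hq | rfl
        · exact h.chk q hq
        · exact hc
      · intro q hq
        simp only [List.mem_append, List.mem_singleton] at hq
        rcases hq with hq | rfl
        · exact h.dlv q hq
        · exact hlive
      · intro j hj β hβ
        have e2 : hR ((n, T), (dn ++ [(a, r ++ b)], (p.1, pad (i + 1 + 1) p.2) :: pd')) =
            pad (i + 1 + 1) p.2 := rfl
        rw [e2] at hj hβ ⊢
        rw [pad_length (by omega)] at hj ⊢
        have : j = 0 := by omega
        subst this
        have e3 := @hout β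
        rw [e2, pad_length (by omega)] at e3
        refine e3 ?_
        simpa using hβ
      · intro m hm
        obtain ⟨kk, hkk⟩ := h.stt m hm
        refine ⟨kk, fun q hq => ?_⟩
        obtain ⟨q0, h1, h2, h3⟩ := hext q hq
        have := hkk q0 h1
        rw [h2] at this
        exact ⟨this.1, this.2.trans h3⟩
      · exact h.tab
      · exact h.tinc
      · exact h.tst
    | nil =>
      rw [step_last hf] at hout hrle hrpos ⊢
      have e0 : (fnd (V 0) ((n, T), (dn, [(a, r)])) q1).getD [] = b := by rw [hf]; rfl
      have e4 : newT ((n, T), (dn, [(a, r)])) b = T ++ (dn ++ [(a, r ++ b)]) := rfl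
      simp only [Option.getD_some, e0, e4] at hout hrle hrpos ⊢
      generalize hX : dn ++ [(a, r ++ b)] = X at *
      -- entries of `X` extend old items
      have hext : ∀ q ∈ X, ∃ q0 ∈ dn ++ [(a, r)], q0.1 = q.1 ∧ q0.2 <+: q.2 := by
        intro q hq
        rw [← hX] at hq
        simp only [List.mem_append, List.mem_singleton] at hq
        rcases hq with hq | rfl
        · exact ⟨q, by simp [hq], rfl, List.prefix_rfl⟩
        · exact ⟨(a, r), by simp, rfl, List.prefix_append _ _⟩
      have hXa : X.map Prod.fst = live n (cm V T) := by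
        have := h.adr
        simp only [List.map_append, List.map_cons, List.map_nil] at this
        rw [← hX]
        simpa using this
      have hXn : ∀ p ∈ X, p.1.length = n := by
        intro p hp
        have : p.1 ∈ X.map Prod.fst := List.mem_map_of_mem hp
        rw [hXa] at this
        exact live_len this
      have hXchk : ∀ p ∈ X, V 0 p.2 n = true := by
        intro p hp
        rw [← hX] at hp
        simp only [List.mem_append, List.mem_singleton] at hp
        rcases hp with hp | rfl
        · exact h.chk p hp
        · exact hc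
      have hXlive : ∀ p ∈ X, p.2 ∈ live p.2.length V := by
        intro p hp
        rw [← hX] at hp
        simp only [List.mem_append, List.mem_singleton] at hp
        rcases hp with hp | rfl
        · exact h.dlv p hp
        · exact hlive
      have hXlen : ∀ p ∈ X, p.2.length ≤ i + 1 := by
        intro p hp
        rw [← hX] at hp
        simp only [List.mem_append, List.mem_singleton] at hp
        rcases hp with hp | rfl
        · have := hI.dn1 p (by simp [hp]); omega
        · simp only; omega
      have hTlen : ∀ p ∈ T ++ X, p.2.length ≤ i + 1 := by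
        intro p hp
        rw [List.mem_append] at hp
        rcases hp with hp | hp
        · have := hI.dn1 p (by simp [hp]); omega
        · exact hXlen p hp
      have hlow : ∀ σ : Str, σ.length < n → lk (T ++ X) σ = lk T σ := by
        intro σ hσ
        refine lk_append' T X σ ?_
        intro hc
        obtain ⟨p, hp, rfl⟩ := List.mem_map.1 hc
        have := hXn p hp
        omega
      have hTn : ∀ p ∈ T, p.1.length < n := h.key
      have hXlk : ∀ γ ∈ live n (cm V T), (γ, lk (T ++ X) γ) ∈ X := by
        intro γ hγ
        rw [lk_append T X γ]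
        · rcases lk_mem_or X γ with h1 | h1
          · exact h1
          · rw [← hXa] at hγ
            exact absurd hγ h1.1
        · intro hc
          obtain ⟨p, hp, rfl⟩ := List.mem_map.1 hc
          have h1 := hTn p hp
          have h2 := live_len hγ
          omega
      have hcg : ∀ j, j ≤ n → live j (cm V (T ++ X)) = live j (cm V T) :=
        fun j hj => live_cm_congr hlow hj
      have hdrop : ∀ α ∈ live (n + 1) (cm V (T ++ X)), α.dropLast ∈ live n (cm V T) := by
        intro α hα
        have := (hNN (n + 1) (by omega) (cm V (T ++ X))).2 α hα (by omega)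
        rw [Nat.add_sub_cancel, hcg n le_rfl] at this
        exact this
      have hXinc : ∀ p ∈ X, ∀ q ∈ X, Cmp p.2 q.2 → p.1 = q.1 := by
        intro q hq q' hq' hcmp
        obtain ⟨q0, h1, h2, h3⟩ := hext q hq
        obtain ⟨q1, h1', h2', h3'⟩ := hext q' hq'
        rw [← h2, ← h2']
        exact h.inc q0 h1 q1 h1' (hcmp.of_pre h3 h3')
      have hXf0 : ∀ p ∈ X, [false] <+: p.2 := by
        intro q hq
        obtain ⟨q0, h1, h2, h3⟩ := hext q hq
        exact (h.f0 q0 h1).trans h3
      have hXlow : ∀ p ∈ X, n + 1 ≤ p.2.length := by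
        intro q hq
        obtain ⟨q0, h1, h2, h3⟩ := hext q hq
        exact le_trans (h.low q0 h1) h3.length_le
      constructor
      · intro p hp
        simp only [List.nil_append, List.mem_map] at hp
        obtain ⟨α, hα, rfl⟩ := hp
        exact (hXf0 _ (hXlk _ (hdrop α hα))).trans
          ((pre_pad _ _).trans (List.prefix_append _ _))
      · intro p hp
        simp only [List.nil_append, List.mem_map] at hp
        obtain ⟨α, hα, rfl⟩ := hp
        unfold newP
        simp only [List.length_append, List.length_singleton]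
        rw [pad_length (lk_len hTlen _)]
        omega
      · simp only [List.nil_append, List.map_map]
        have : (Prod.fst ∘ newP (i + 1) (T ++ X)) = id := by funext α; rfl
        rw [this, List.map_id]
      · intro p hp
        simp only at hp ⊢
        rw [List.mem_append] at hp
        rcases hp with hp | hp
        · have := hTn p hp; omega
        · have := hXn p hp; omega
      · intro p hp q hq hcmp
        simp only [List.nil_append, List.mem_map] at hp hq
        obtain ⟨α, hα, rfl⟩ := hp
        obtain ⟨α', hα', rfl⟩ := hq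
        unfold newP at hcmp ⊢
        simp only at hcmp ⊢
        have h1 : α.dropLast = α'.dropLast := by
          refine hXinc _ (hXlk _ (hdrop α hα)) _ (hXlk _ (hdrop α' hα')) ?_
          exact hcmp.of_pre ((pre_pad _ _).trans (List.prefix_append _ _))
            ((pre_pad _ _).trans (List.prefix_append _ _))
        rw [h1] at hcmp
        have h2 := hcmp.eq (by simp)
        have h3 := List.append_cancel_left h2
        rw [← split_last (live_len hα), ← split_last (live_len hα'), h1, h3]
      · intro p hp; simp at hp
      · intro p hp; simp at hp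
      · intro j hj β hβ
        have hlen : ∀ q ∈ (live (n + 1) (cm V (T ++ X))).map (newP (i + 1) (T ++ X)),
            q.2.length = i + 1 + 1 := by
          intro q hq
          obtain ⟨α, hα, rfl⟩ := List.mem_map.1 hq
          unfold newP
          simp only [List.length_append, List.length_singleton]
          rw [pad_length (lk_len hTlen _)]
        have hne2 : (live (n + 1) (cm V (T ++ X))).map (newP (i + 1) (T ++ X)) ≠ [] := by
          simp only [ne_eq, List.map_eq_nil_iff]
          exact live_ne _ _
        obtain ⟨q0, rest, hq0⟩ := List.exists_cons_of_ne_nil hne2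
        have hhR : (hR ((n + 1, T ++ X), ([], (live (n + 1) (cm V (T ++ X))).map
            (newP (i + 1) (T ++ X))))).length = i + 1 + 1 := by
          unfold hR
          simp only [hq0, List.headI_cons]
          exact hlen q0 (by rw [hq0]; simp)
        rw [hhR] at hj ⊢
        have : j = 0 := by omega
        subst this
        have e3 := @hout β
        rw [hhR] at e3
        refine e3 ?_
        simpa using hβ
      · intro m hm
        refine ⟨i + 1, fun p hp => ?_⟩
        simp only [List.nil_append, List.mem_map] at hp
        obtain ⟨α, hα, rfl⟩ := hp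
        unfold newP
        exact ⟨lk_len hTlen _, List.prefix_rfl⟩
      · intro m hm γ hγ
        simp only at hm hγ ⊢
        by_cases hmn : m < n
        · rw [hcg m (by omega)] at hγ
          rw [hlow γ (by rw [live_len hγ]; omega)]
          exact h.tab m hmn γ hγ
        · have : m = n := by omega
          subst this
          rw [hcg m le_rfl] at hγ
          have h1 := hXlk γ hγ
          exact ⟨hXlive _ h1, hXchk _ h1, hXlow _ h1, hXf0 _ h1⟩
      · intro m hm γ hγ γ' hγ' hcmp
        simp only at hm hγ hγ' hcmp
        by_cases hmn : m < n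
        · rw [hcg m (by omega)] at hγ hγ'
          rw [hlow γ (by rw [live_len hγ]; omega), hlow γ' (by rw [live_len hγ']; omega)] at hcmp
          exact h.tinc m hmn γ hγ γ' hγ' hcmp
        · have : m = n := by omega
          subst this
          rw [hcg m le_rfl] at hγ hγ'
          exact hXinc _ (hXlk γ hγ) _ (hXlk γ' hγ') hcmp
      · intro m hm
        simp only at hm ⊢
        by_cases hmn : m + 1 < n
        · obtain ⟨kk, hkk⟩ := h.tst m hmn
          refine ⟨kk, fun α hα => ?_⟩
          rw [hcg (m + 1) (by omega)] at hα
          rw [hlow α (by rw [live_len hα]; omega), hlow α.dropLast (by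
            rw [List.length_dropLast, live_len hα]; omega)]
          exact hkk α hα
        · have hmn : n = m + 1 := by omega
          obtain ⟨kk, hkk⟩ := h.stt m hmn
          simp only at hkk
          refine ⟨kk, fun α hα => ?_⟩
          have hα' := hα
          rw [hcg (m + 1) (by omega)] at hα
          rw [hlow α.dropLast (by rw [List.length_dropLast, live_len hα]; omega)]
          rw [← hmn] at hα
          have h1 := hXlk α hα
          obtain ⟨q0, h2, h3, h4⟩ := hext _ h1
          simp only at h3 h4
          have := hkk q0 h2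
          rw [h3] at this
          exact ⟨this.1, this.2.trans h4⟩

/-! nestedness and absence of duplicates -/

lemma pad_dropLast {k : ℕ} {s : Str} (h : s.length ≤ k) : (pad (k + 1) s).dropLast = pad k s := by
  unfold pad
  have : k + 1 - s.length = (k - s.length) + 1 := by omega
  rw [this, List.replicate_succ', ← List.append_assoc, List.dropLast_concat]

lemma pad_self {s : Str} : pad s.length s = s := by unfold pad; simp

lemma mem_live {V : Env} {i : ℕ} {x : Str} : x ∈ live (i + 1) V ↔
    x = true :: List.replicate i false ∨ (∃ p ∈ (stN live V i).2.1, pad (i + 1) p.2 = x) ∨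
    (∃ β ∈ live (i + 1 - (hR (stN live V i)).length) (sh V (hR (stN live V i))),
      hR (stN live V i) ++ β = x) ∨
    (∃ p ∈ (stN live V i).2.2.tail, pad (i + 1) p.2 = x) := by
  rw [live_succ]
  unfold outF
  simp only [List.mem_cons, List.mem_append, List.mem_map, Nat.add_sub_cancel]

lemma cmp_of_pre {s t u : Str} (h1 : s <+: u) (h2 : t <+: u) : Cmp s t :=
  List.prefix_or_prefix_of_prefix h1 h2

/-- the table after the last step of a round -/
lemma last_tab {V : Env} {i n : ℕ} {T dn : Tab} {a r b : Str}
    (h : Inv V i ((n, T), (dn, [(a, r)]))) (hN : NN (n + 1)) {α : Str}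
    (hα : α ∈ live (n + 1) (cm V (T ++ (dn ++ [(a, r ++ b)])))) :
    (α.dropLast, lk (T ++ (dn ++ [(a, r ++ b)])) α.dropLast) ∈ dn ++ [(a, r ++ b)] := by
  generalize hX : dn ++ [(a, r ++ b)] = X at *
  have hXa : X.map Prod.fst = live n (cm V T) := by
    have := h.adr
    simp only [List.map_append, List.map_cons, List.map_nil] at this
    rw [← hX]
    simpa using this
  have hXn : ∀ p ∈ X, p.1.length = n := by
    intro p hp
    have : p.1 ∈ X.map Prod.fst := List.mem_map_of_mem hp
    rw [hXa] at this
    exact live_len this
  have hlow : ∀ σ : Str, σ.length < n → lk (T ++ X) σ = lk T σ := by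
    intro σ hσ
    refine lk_append' T X σ ?_
    intro hc
    obtain ⟨p, hp, rfl⟩ := List.mem_map.1 hc
    have := hXn p hp
    omega
  have hd : α.dropLast ∈ live n (cm V T) := by
    have := (hN (cm V (T ++ X))).2 α hα (by omega)
    rw [Nat.add_sub_cancel, live_cm_congr hlow le_rfl] at this
    exact this
  rw [lk_append T X α.dropLast]
  · rcases lk_mem_or X α.dropLast with h1 | h1
    · exact h1
    · rw [← hXa] at hd
      exact absurd hd h1.1
  · intro hc
    obtain ⟨p, hp, hp'⟩ := List.mem_map.1 hc
    have h1 := h.key p hp
    have h2 := live_len hd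
    simp only at h1
    rw [hp'] at h1
    omega

lemma nested_aux {V : Env} {i : ℕ} (hNN : ∀ j, j ≤ i + 1 → NN j)
    (h : Inv V i (stN live V i)) :
    ∀ x ∈ live (i + 2) V, x.dropLast ∈ live (i + 1) V := by
  intro x hx
  rw [show i + 2 = (i + 1) + 1 from rfl, mem_live] at hx
  have hI := inv1 V i
  rw [mem_live]
  rw [stN_succ] at hx
  generalize hst : stN live V i = st at *
  obtain ⟨⟨n, T⟩, ⟨dn, pd⟩⟩ := st
  have hne := hI.ne
  simp only at hne
  obtain ⟨⟨a, r⟩, pd, rfl⟩ := List.exists_cons_of_ne_nil hne
  have hr := hI.pd1 (a, r) (by simp)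
  have hn := hI.nle
  simp only at hr hn
  unfold nxt at hx
  have e1 : hR ((n, T), (dn, (a, r) :: pd)) = r := rfl
  rw [e1] at hx ⊢
  simp only [List.tail_cons]
  generalize hq1 : live (i + 1 - r.length) (sh V r) = q1 at *
  cases hf : fnd (V 0) ((n, T), (dn, (a, r) :: pd)) q1 with
  | none =>
    rw [step_none hf, e1] at hx
    simp only [List.tail_cons] at hx
    rcases hx with rfl | ⟨p, hp, rfl⟩ | ⟨β, hβ, rfl⟩ | ⟨p, hp, rfl⟩
    · left
      rw [List.replicate_succ', ← List.cons_append, List.dropLast_concat]
    · right; left
      exact ⟨p, hp, (pad_dropLast (by have := hI.dn1 p (by simp [hp]); omega)).symm⟩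
    · right; right; left
      have hβl := live_len hβ
      refine ⟨β.dropLast, ?_, ?_⟩
      · have := (hNN (i + 1 + 1 - r.length) (by omega) (sh V r)).2 β hβ (by omega)
        rw [← hq1]
        have e : i + 1 + 1 - r.length - 1 = i + 1 - r.length := by omega
        rw [← e]
        exact this
      · rw [List.dropLast_append_of_ne_nil]
        rintro rfl
        simp only [List.length_nil] at hβl
        omega
    · right; right; right
      exact ⟨p, hp, (pad_dropLast (by have := hI.pd1 p (by simp [hp]); omega)).symm⟩
  | some b =>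
    obtain ⟨hb, hc⟩ := fnd_some hf
    have hbl : b.length = i + 1 - r.length := by
      rw [← hq1] at hb
      exact live_len hb
    have hrb : (r ++ b).length = i + 1 := by rw [List.length_append]; omega
    cases pd with
    | cons p pd' =>
      have hp := hI.pd1 p (by simp)
      rw [step_more hf] at hx
      have e2 : hR ((n, T), (dn ++ [(a, r ++ b)], (p.1, pad (i + 1 + 1) p.2) :: pd')) =
            pad (i + 1 + 1) p.2 := rfl
      rw [e2, pad_length (by omega), Nat.sub_self, live_zero] at hx
      simp only [List.tail_cons, List.mem_append, List.mem_singleton] at hx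
      rcases hx with rfl | ⟨q, hq | rfl, rfl⟩ | ⟨β, rfl, rfl⟩ | ⟨q, hq, rfl⟩
      · left
        rw [List.replicate_succ', ← List.cons_append, List.dropLast_concat]
      · right; left
        exact ⟨q, hq, (pad_dropLast (by have := hI.dn1 q (by simp [hq]); omega)).symm⟩
      · right; right; left
        refine ⟨b, hb, ?_⟩
        simp only
        rw [pad_dropLast (by omega), ← hrb, pad_self]
      · right; right; right
        refine ⟨p, by simp, ?_⟩
        rw [List.append_nil, pad_dropLast (by omega)]
      · right; right; right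
        exact ⟨q, by simp [hq], (pad_dropLast (by have := hI.pd1 q (by simp [hq]); omega)).symm⟩
    | nil =>
      rw [step_last hf] at hx
      have e0 : (fnd (V 0) ((n, T), (dn, [(a, r)])) q1).getD [] = b := by rw [hf]; rfl
      have e4 : newT ((n, T), (dn, [(a, r)])) b = T ++ (dn ++ [(a, r ++ b)]) := rfl
      simp only [e0, e4] at hx
      have hlt : ∀ α ∈ live (n + 1) (cm V (T ++ (dn ++ [(a, r ++ b)]))),
          (newP (i + 1) (T ++ (dn ++ [(a, r ++ b)])) α).2.length = i + 2 ∧
          ((∃ p ∈ dn, pad (i + 1) p.2 = (newP (i + 1) (T ++ (dn ++ [(a, r ++ b)])) α).2.dropLast) ∨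
          (∃ β ∈ q1, r ++ β = (newP (i + 1) (T ++ (dn ++ [(a, r ++ b)])) α).2.dropLast)) := by
        intro α hα
        have h1 := last_tab h (hNN _ (by omega)) hα
        unfold newP
        simp only [List.dropLast_concat, List.length_append, List.length_singleton]
        rw [List.mem_append, List.mem_singleton] at h1
        rcases h1 with h1 | h1
        · have h2 := hI.dn1 _ (List.mem_append_right T h1)
          simp only at h2
          rw [pad_length (by omega)]
          exact ⟨rfl, Or.inl ⟨_, h1, rfl⟩⟩
        · have h2 := (Prod.mk.inj h1).2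
          rw [h2, pad_length (by omega)]
          refine ⟨rfl, Or.inr ⟨b, hb, ?_⟩⟩
          rw [← hrb, pad_self]
      have hall : ∀ q ∈ (live (n + 1) (cm V (T ++ (dn ++ [(a, r ++ b)])))).map
          (newP (i + 1) (T ++ (dn ++ [(a, r ++ b)]))), q.2.length = i + 2 ∧
          ((∃ p ∈ dn, pad (i + 1) p.2 = q.2.dropLast) ∨ (∃ β ∈ q1, r ++ β = q.2.dropLast)) := by
        intro q hq
        obtain ⟨α, hα, rfl⟩ := List.mem_map.1 hq
        exact hlt α hα
      have hne2 : (live (n + 1) (cm V (T ++ (dn ++ [(a, r ++ b)])))).map
          (newP (i + 1) (T ++ (dn ++ [(a, r ++ b)]))) ≠ [] := by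
        simp only [ne_eq, List.map_eq_nil_iff]
        exact live_ne _ _
      generalize hP : (live (n + 1) (cm V (T ++ (dn ++ [(a, r ++ b)])))).map
          (newP (i + 1) (T ++ (dn ++ [(a, r ++ b)]))) = P at *
      obtain ⟨q0, rest, rfl⟩ := List.exists_cons_of_ne_nil hne2
      have e5 : hR ((n + 1, T ++ (dn ++ [(a, r ++ b)])), ([], q0 :: rest)) = q0.2 := rfl
      rw [e5, (hall q0 (by simp)).1, Nat.sub_self, live_zero] at hx
      simp only [List.tail_cons, List.not_mem_nil, false_and, exists_false, List.mem_singleton,
        false_or] at hx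
      rcases hx with rfl | ⟨β, rfl, rfl⟩ | ⟨q, hq, rfl⟩
      · left
        rw [List.replicate_succ', ← List.cons_append, List.dropLast_concat]
      · rw [List.append_nil]
        rcases (hall q0 (by simp)).2 with h1 | h1
        · right; left; exact h1
        · right; right; left; exact h1
      · have h0 := hall q (by simp [hq])
        have : pad (i + 1 + 1) q.2 = q.2 := by
          have h3 := @pad_self q.2
          rw [h0.1] at h3
          exact h3
        rw [this]
        rcases h0.2 with h1 | h1
        · right; left; exact h1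
        · right; right; left; exact h1

lemma nodup_aux {V : Env} {i : ℕ} (hNN : ∀ j, j ≤ i → NN j)
    (h : Inv V i (stN live V i)) : (live (i + 1) V).Nodup := by
  have hI := inv1 V i
  rw [live_succ]
  have hch := (hNN (i + 1 - (hR (stN live V i)).length) (by have := hR_pos V i; omega)
    (sh V (hR (stN live V i)))).1
  generalize live (i + 1 - (hR (stN live V i)).length) (sh V (hR (stN live V i))) = q1 at *
  generalize hst : stN live V i = st at *
  obtain ⟨⟨n, T⟩, ⟨dn, pd⟩⟩ := st
  have hne := hI.ne
  simp only at hne
  obtain ⟨⟨a, r⟩, pd, rfl⟩ := List.exists_cons_of_ne_nil hne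
  have e1 : hR ((n, T), (dn, (a, r) :: pd)) = r := rfl
  have hnd : ((dn ++ (a, r) :: pd).map Prod.fst).Nodup := by
    have := h.adr
    simp only at this
    rw [this]
    exact (hNN n hI.nle _).1
  have hinj : ∀ p ∈ dn ++ (a, r) :: pd, ∀ q ∈ dn ++ (a, r) :: pd, Cmp p.2 q.2 → p = q := by
    intro p hp q hq hc
    exact List.inj_on_of_nodup_map hnd hp hq (h.inc p hp q hq hc)
  have hnd2 : (dn ++ (a, r) :: pd).Nodup := List.Nodup.of_map _ hnd
  rw [List.nodup_append] at hnd2
  obtain ⟨hn1, hn2, hn3⟩ := hnd2
  rw [List.nodup_cons] at hn2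
  unfold outF
  rw [e1]
  simp only [List.tail_cons]
  rw [List.nodup_cons]
  constructor
  · intro hc
    simp only [List.mem_append, List.mem_map] at hc
    have hbad : ∀ s t : Str, [false] <+: s → s <+: t → t ≠ true :: List.replicate (i + 1 - 1) false := by
      rintro s t h1 h2 rfl
      obtain ⟨u, hu⟩ := h1.trans h2
      simp at hu
    rcases hc with ⟨p, hp, hp'⟩ | ⟨β, hβ, hβ'⟩ | ⟨p, hp, hp'⟩
    · exact hbad p.2 _ (h.f0 p (by simp [hp])) (pre_pad _ _) hp'
    · exact hbad r _ (h.f0 (a, r) (by simp)) (List.prefix_append _ _) hβ'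
    · exact hbad p.2 _ (h.f0 p (by simp [hp])) (pre_pad _ _) hp'
  · rw [List.nodup_append]
    refine ⟨?_, ?_, ?_⟩
    · refine List.Nodup.map_on (fun p hp q hq hpq => ?_) hn1
      exact hinj p (by simp [hp]) q (by simp [hq])
        (cmp_of_pre (pre_pad _ _) (hpq ▸ pre_pad (i + 1) q.2))
    · rw [List.nodup_append]
      refine ⟨?_, ?_, ?_⟩
      · exact hch.map (List.append_right_injective _)
      · refine List.Nodup.map_on (fun p hp q hq hpq => ?_) hn2.2
        exact hinj p (by simp [hp]) q (by simp [hq])
          (cmp_of_pre (pre_pad _ _) (hpq ▸ pre_pad (i + 1) q.2))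
      · intro x hx y hy hxy
        subst hxy
        obtain ⟨β, hβ, rfl⟩ := List.mem_map.1 hx
        obtain ⟨p, hp, hp'⟩ := List.mem_map.1 hy
        have := hinj (a, r) (by simp) p (by simp [hp])
          (cmp_of_pre (List.prefix_append r β) (hp' ▸ pre_pad (i + 1) p.2))
        rw [← this] at hp
        exact hn2.1 hp
    · intro x hx y hy hxy
      subst hxy
      obtain ⟨p, hp, rfl⟩ := List.mem_map.1 hx
      rw [List.mem_append] at hy
      rcases hy with hy | hy
      · obtain ⟨β, hβ, hβ'⟩ := List.mem_map.1 hy
        have := hinj p (by simp [hp]) (a, r) (by simp)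
          (cmp_of_pre (pre_pad (i + 1) p.2) (hβ' ▸ List.prefix_append r β))
        subst this
        exact hn3 _ hp _ (by simp) rfl
      · obtain ⟨q, hq, hq'⟩ := List.mem_map.1 hy
        have := hinj p (by simp [hp]) q (by simp [hq])
          (cmp_of_pre (pre_pad (i + 1) p.2) (hq' ▸ pre_pad (i + 1) q.2))
        subst this
        exact hn3 _ hp _ (by simp [hq]) rfl

lemma inv_of {m : ℕ} (hNN : ∀ j, j ≤ m → NN j) (V : Env) : ∀ i, i ≤ m → Inv V i (stN live V i) := by
  intro i
  induction i with
  | zero => exact fun _ => inv_zero V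
  | succ i ih => exact fun hi => inv_succ (i := i) (fun j hj => hNN j (by omega)) (ih (by omega))

lemma nn (m : ℕ) : NN m := by
  induction m using Nat.strong_induction_on with
  | _ m ih =>
    intro V
    rcases m with _ | m
    · rw [live_zero]; simp
    · have hi := inv_of (m := m) (fun j hj => ih j (by omega)) V
      refine ⟨nodup_aux (fun j hj => ih j (by omega)) (hi m le_rfl), ?_⟩
      intro x hx _
      rw [Nat.add_sub_cancel]
      rcases m with _ | m
      · have := live_len hx
        rw [live_zero]
        simp only [List.mem_singleton]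
        rw [← List.length_eq_zero_iff, List.length_dropLast, this]
      · exact nested_aux (fun j hj => ih j (by omega)) (hi m (by omega)) x hx

lemma inv (V : Env) (i : ℕ) : Inv V i (stN live V i) := inv_of (fun j _ => nn j) V i le_rfl

lemma live_nodup (k : ℕ) (V : Env) : (live k V).Nodup := (nn k V).1

lemma live_take {V : Env} {k : ℕ} {x : Str} (h : x ∈ live k V) {j : ℕ} (hj : j ≤ k) :
    x.take j ∈ live j V := by
  induction k generalizing x with
  | zero =>
    have : j = 0 := by omega
    subst this
    rw [live_zero]; simp
  | succ k ih =>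
    by_cases hjk : j = k + 1
    · subst hjk
      rw [List.take_of_length_le (by rw [live_len h])]
      exact h
    · have h1 := (nn (k + 1) V).2 x h (by omega)
      rw [Nat.add_sub_cancel] at h1
      have h2 := ih h1 (by omega)
      rw [List.dropLast_eq_take, live_len h, Nat.add_sub_cancel, List.take_take] at h2
      rwa [min_eq_left (by omega)] at h2

end Pool.Agent.NH86.NCR
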