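import Pool.Agent.NH86.NCR.Low

set_option autoImplicit false

/-! Everything computable from the constructed path is in a countable effectively closed class. -/

namespace Pool.Agent.NH86.NCR

open Encodable Nat.Partrec Pool.Agent.Helper446 Pool.Agent.Helper446.RE Pool.Agent.Helper743

theorem flatten_comp {α β : Type*} [Primcodable α] [Primcodable β] {f : α → List (List β)}
    (hf : Computable f) : Computable (fun x => (f x).flatten) :=
  Primrec.list_flatten.to_comp.comp hf

theorem choice_comp {P : ℕ → ℕ → Prop} (hP : REPred (fun x : ℕ × ℕ => P x.1 x.2))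
    (hex : ∀ n, ∃ k, P n k) : ∃ f : ℕ → ℕ, Computable f ∧ ∀ n, P n (f n) := by
  obtain ⟨f, hf, h1, h2⟩ := uniformize (r := P) hP
  have hd : ∀ n, (f n).Dom := fun n => (h1 n).2 (hex n)
  refine ⟨fun n => (f n).get (hd n), ?_, fun n => h2 n _ (Part.get_mem _)⟩
  refine Partrec.of_eq hf (fun n => ?_)
  exact (Part.some_get (hd n)).symm

lemma cnd_self (X : ℕ → Bool) (m0 k : ℕ) : cnd (tk X m0) (tk X k) := by
  unfold cnd
  rw [tk_length, tk_length]
  rcases le_total m0 k with h1 | h1
  · rw [tk_take _ _ _ h1, List.take_of_length_le (by simpa using h1)]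
  · rw [tk_take _ _ _ h1, List.take_of_length_le (by simpa using h1)]

/-- the output string -/
def outS (e : Str → ℕ → Option ℕ) (n : ℕ) (τ : Str) : Str :=
  (List.range n).map (fun m => decide ((e τ m).getD 0 = 1))

theorem Cls.red {L : ℕ → List Str} {X : ℕ → Bool} (h : Cls L X) {Y : ℕ → Bool}
    (hY : TR (fun n => (Y n).toNat) (fun n => (X n).toNat)) :
    ∃ C : ℕ → List Str, Computable C ∧ (∀ n, ∀ γ ∈ C n, γ.length = n) ∧ Y ∈ Pt C ∧
      (Pt C).Countable := by
  classical
  obtain ⟨ev, hev, hmono, hspec⟩ := use_principle _ _ hY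
  let e : Str → ℕ → Option ℕ := fun σ x => ev (σ.map Bool.toNat) x
  have he : Computable (fun x : Str × ℕ => e x.1 x.2) := by
    have h1 : Computable (fun x : Str × ℕ => x.1.map Bool.toNat) :=
      cmapP (g := fun _ b => Bool.toNat b) (by fun_prop) (by fun_prop)
    exact hev.comp h1 Computable.snd
  have emono : ∀ σ τ x y, σ <+: τ → e σ x = some y → e τ x = some y := by
    intro σ τ x y hp
    exact hmono _ _ x y (hp.map _)
  have espec : ∀ m y, (∃ i, e (tk X i) m = some y) ↔ y = (Y m).toNat := by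
    intro m y
    have h1 := hspec m y
    rw [Part.mem_some_iff] at h1
    rw [h1]
    have h2 : ∀ i, pre (fun n => (X n).toNat) i = (tk X i).map Bool.toNat := by
      intro i
      simp [pre, tk, List.map_map, Function.comp_def]
    simp only [h2, e]
  have hW : REPred (fun x : Str × ℕ => (e x.1 x.2).isSome = true) := by
    refine of_bool ?_
    exact cisSome he
  obtain ⟨m0, h0 | h0⟩ := h.alt (fun σ n => (e σ n).isSome = true) hW
  · exfalso
    obtain ⟨n, hn⟩ := h0 X h.mem rfl
    obtain ⟨i, hi⟩ := (espec n (Y n).toNat).2 rfl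
    apply hn i
    rw [hi]; rfl
  let P : ℕ → ℕ → Prop := fun n k => n ≤ k ∧ ∀ τ ∈ L k,
    τ.take (tk X m0).length ≠ (tk X m0).take τ.length ∨ ∀ m < n, (e τ m).isSome = true
  have hPre : REPred (fun x : ℕ × ℕ => P x.1 x.2) := by
    refine RE.and (le (by fun_prop) (by fun_prop)) ?_
    refine all_mem (p := fun (x : ℕ × ℕ) τ => τ.take (tk X m0).length ≠ (tk X m0).take τ.length ∨
      ∀ m < x.1, (e τ m).isSome = true) ?_ (h.comp.comp Computable.snd)
    refine RE.or (ne (by fun_prop) (by fun_prop)) ?_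
    refine all_lt (p := fun (x : (ℕ × ℕ) × Str) m => (e x.2 m).isSome = true) ?_ (by fun_prop)
    exact RE.comp hW (f := fun x : ((ℕ × ℕ) × Str) × ℕ => (x.1.2, x.2)) (by fun_prop)
  have hex : ∀ n, ∃ k, P n k := by
    intro n
    obtain ⟨k, hk⟩ : ∃ k, ∀ τ ∈ L k, cnd (tk X m0) τ →
        (n ≤ k ∧ ∀ m < n, (e τ m).isSome = true) := by
      refine h.compact (m0 := m0) (Q := fun k τ => n ≤ k ∧ ∀ m < n, (e τ m).isSome = true) ?_ ?_
      · rintro j k τ hjk ⟨h1, h2⟩
        refine ⟨by omega, fun m hm => ?_⟩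
        obtain ⟨y, hy⟩ := Option.isSome_iff_exists.1 (h2 m hm)
        rw [emono _ _ m y (List.take_prefix j τ) hy]; rfl
      · intro Z hZ hZX
        choose i hi using h0 Z hZ hZX
        refine ⟨max n ((Finset.range n).sup i), le_max_left _ _, fun m hm => ?_⟩
        obtain ⟨y, hy⟩ := Option.isSome_iff_exists.1 (hi m)
        have h3 := Finset.le_sup (f := i) (Finset.mem_range.2 hm)
        have h4 := le_max_right n ((Finset.range n).sup i)
        rw [emono _ _ m y (tk_pre Z (by omega)) hy]; rfl
    refine ⟨k, (hk _ (h.mem k) (cnd_self X m0 k)).1, fun τ hτ => ?_⟩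
    by_cases hc : cnd (tk X m0) τ
    · right; exact (hk τ hτ hc).2
    · left; exact hc
  obtain ⟨kk, hkk, hkP⟩ := choice_comp hPre hex
  let C : ℕ → List Str := fun n => ((L (kk n)).map (fun τ =>
    bif decide (τ.take (tk X m0).length = (tk X m0).take τ.length) then [outS e n τ]
      else [])).flatten
  have hC : ∀ n γ, γ ∈ C n ↔ ∃ τ ∈ L (kk n), cnd (tk X m0) τ ∧ outS e n τ = γ := by
    intro n γ
    simp only [C, List.mem_flatten, List.mem_map]
    constructor
    · rintro ⟨l, ⟨τ, hτ, rfl⟩, hγ⟩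
      by_cases hc : τ.take (tk X m0).length = (tk X m0).take τ.length
      · rw [decide_eq_true hc, cond_true, List.mem_singleton] at hγ
        exact ⟨τ, hτ, hc, hγ.symm⟩
      · rw [decide_eq_false hc, cond_false] at hγ
        simp at hγ
    · rintro ⟨τ, hτ, hc, rfl⟩
      have hc : τ.take (tk X m0).length = (tk X m0).take τ.length := hc
      exact ⟨_, ⟨τ, hτ, rfl⟩, by rw [decide_eq_true hc, cond_true]; simp⟩
  refine ⟨C, ?_, ?_, ?_, ?_⟩
  · -- computability
    refine flatten_comp ?_
    refine cmapP (f := fun n => L (kk n)) (g := fun n τ =>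
      bif decide (τ.take (tk X m0).length = (tk X m0).take τ.length) then [outS e n τ]
        else []) (h.comp.comp hkk) ?_
    have h1 : Computable (fun x : ℕ × Str => decide (x.2.take (tk X m0).length =
        (tk X m0).take x.2.length)) := cdecide (cp_eq (by fun_prop) (by fun_prop))
    have h2 : Computable (fun x : ℕ × Str => outS e x.1 x.2) := by
      unfold outS
      refine cmapP (f := fun x : ℕ × Str => List.range x.1)
        (g := fun (x : ℕ × Str) m => decide ((e x.2 m).getD 0 = 1))
        (Primrec.list_range.to_comp.comp Computable.fst) ?_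
      refine cdecide (cp_eq ?_ (by fun_prop))
      refine cgetD ?_
      exact he.comp (f := fun x : Str × ℕ => e x.1 x.2)
        (g := fun x : (ℕ × Str) × ℕ => (x.1.2, x.2)) (by fun_prop)
    fun_prop
  · intro n γ hγ
    obtain ⟨τ, _, _, rfl⟩ := (hC n γ).1 hγ
    simp [outS]
  · intro n
    rw [hC]
    refine ⟨tk X (kk n), h.mem _, cnd_self _ _ _, ?_⟩
    unfold outS tk
    refine List.map_congr_left (fun m hm => ?_)
    rw [List.mem_range] at hm
    rcases (hkP n).2 _ (h.mem _) with h1 | h1
    · exact absurd (cnd_self X m0 (kk n)) h1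
    · obtain ⟨y, hy⟩ := Option.isSome_iff_exists.1 (h1 m hm)
      have h2 := (espec m y).1 ⟨_, hy⟩
      have h3 : e ((List.range (kk n)).map X) m = some y := hy
      rw [h3, Option.getD_some, h2]
      cases Y m <;> rfl
  · -- countability
    let F : (ℕ → Bool) → (ℕ → Bool) := fun Z m => decide (∃ i, e (tk Z i) m = some 1)
    refine (h.cnt.image F).mono ?_
    intro Z' hZ'
    obtain ⟨Z, hZ⟩ := konig (A := fun j τ => τ ∈ L j ∧ cnd (tk X m0) τ ∧
        ∀ m < j, ∀ y, e τ m = some y → decide (y = 1) = Z' m)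
      (fun k τ h1 => h.len k τ h1.1)
      (fun k τ h1 => ⟨h.take _ τ h1.1 k (by omega), cnd_take h1.2.1 k, fun m hm y hy =>
        h1.2.2 m (by omega) y (emono _ _ m y (List.take_prefix k τ) hy)⟩)
      (fun j => by
        obtain ⟨τ, h1, h2, h3⟩ := (hC j _).1 (hZ' j)
        refine ⟨τ.take j, h.take _ τ h1 j (hkP j).1, cnd_take h2 j, fun m hm y hy => ?_⟩
        have h4 := emono _ _ m y (List.take_prefix j τ) hy
        have h5 := congrArg (fun l : Str => l.getD m false) h3
        rw [tk_getD hm] at h5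
        rw [← h5]
        unfold outS
        rw [List.getD_eq_getElem _ _ (by simpa using hm)]
        simp [h4])
    refine ⟨Z, fun k => (hZ k).1, ?_⟩
    have hZX : tk Z m0 = tk X m0 := (cnd_tk le_rfl).1 (hZ m0).2.1
    have hZP : Z ∈ Pt L := fun k => (hZ k).1
    funext m
    obtain ⟨i, hi⟩ := h0 Z hZP hZX m
    obtain ⟨y, hy⟩ := Option.isSome_iff_exists.1 hi
    have h1 := (hZ (max i (m + 1))).2.2 m (by omega) y
      (emono _ _ m y (tk_pre Z (le_max_left _ _)) hy)
    show decide (∃ i, e (tk Z i) m = some 1) = Z' m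
    rw [← h1]
    congr 1
    apply propext
    constructor
    · rintro ⟨j, hj⟩
      have h2 := emono _ _ m y (tk_pre Z (le_max_left i j)) hy
      have h3 := emono _ _ m 1 (tk_pre Z (le_max_right i j)) hj
      rw [h2] at h3
      exact Option.some.inj h3
    · rintro rfl
      exact ⟨i, hy⟩

end Pool.Agent.NH86.NCR
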